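import Mathlib

set_option autoImplicit false
set_option linter.style.haveILetI false

namespace Pool.Agent.P6adfe4

open Set

/-- `f` has at most `n` zeros. -/
def ZB (f : ℝ → ℝ) (n : ℕ) : Prop := ∀ Z : Finset ℝ, (∀ x ∈ Z, f x = 0) → Z.card ≤ n

theorem ZB.mono {f : ℝ → ℝ} {n m : ℕ} (h : ZB f n) (hnm : n ≤ m) : ZB f m :=
  fun Z hZ => (h Z hZ).trans hnm

theorem ZB.finite {f : ℝ → ℝ} {n : ℕ} (h : ZB f n) : {x | f x = 0}.Finite := by
  by_contra hinf
  obtain ⟨Z, hZ, hc⟩ := Set.Infinite.exists_subset_card_eq hinf (n + 1)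
  have := h Z (fun x hx => hZ hx)
  omega

/-- Quantitative Rolle theorem for quotients. -/
theorem rolle {f a : ℝ → ℝ} (hf : Differentiable ℝ f) (ha : Differentiable ℝ a) {m k : ℕ}
    (hza : ZB a m) (hzg : ZB (fun x => deriv f x * a x - f x * deriv a x) k) :
    ZB f (k + 2 * m + 1) := by
  classical
  intro Z hZ
  set Za := hza.finite.toFinset with hZa
  set Zg := hzg.finite.toFinset with hZg
  have hcA : Za.card ≤ m := hza Za (fun x hx => by simpa [hZa] using hx)
  have hcG : Zg.card ≤ k := hzg Zg (fun x hx => by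
    have : x ∈ {x | deriv f x * a x - f x * deriv a x = 0} := by simpa [hZg] using hx
    exact this)
  set Z' := Z.filter (fun x => a x ≠ 0) with hZ'
  have h1 : Z.card = Z'.card + (Z.filter (fun x => ¬ a x ≠ 0)).card :=
    (Finset.card_filter_add_card_filter_not (fun x => a x ≠ 0)).symm
  have h2 : (Z.filter (fun x => ¬ a x ≠ 0)).card ≤ m := by
    apply hza
    intro x hx
    have := (Finset.mem_filter.1 hx).2
    push Not at this
    exact this
  have h3 : Z'.card ≤ (Za ∪ Zg).card + 1 := by
    apply Finset.card_le_of_interleaved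
    intro x hx y hy hxy _
    by_cases hz : ∃ z, x < z ∧ z < y ∧ a z = 0
    · obtain ⟨z, hz1, hz2, hz3⟩ := hz
      exact ⟨z, Finset.mem_union_left _ (by simpa [hZa] using hz3), hz1, hz2⟩
    · push Not at hz
      have hax : a x ≠ 0 := (Finset.mem_filter.1 hx).2
      have hay : a y ≠ 0 := (Finset.mem_filter.1 hy).2
      have hne : ∀ z ∈ Icc x y, a z ≠ 0 := by
        intro z hz'
        rcases eq_or_lt_of_le hz'.1 with h | h
        · rw [← h]; exact hax
        · rcases eq_or_lt_of_le hz'.2 with h' | h'
          · rw [h']; exact hay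
          · exact hz z h h'
      have hfx : f x = 0 := hZ x (Finset.mem_filter.1 hx).1
      have hfy : f y = 0 := hZ y (Finset.mem_filter.1 hy).1
      obtain ⟨c, hc, hc0⟩ := exists_deriv_eq_zero (f := fun z => f z / a z) hxy
        (hf.continuous.continuousOn.div ha.continuous.continuousOn hne) (by
          show f x / a x = f y / a y
          rw [hfx, hfy]; simp)
      have hac : a c ≠ 0 := hne c ⟨hc.1.le, hc.2.le⟩
      have hd : deriv (fun z => f z / a z) c
          = (deriv f c * a c - f c * deriv a c) / (a c) ^ 2 := by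
        rw [deriv_fun_div (hf c) (ha c) hac]
      rw [hd, div_eq_zero_iff] at hc0
      rcases hc0 with hc0 | hc0
      · refine ⟨c, Finset.mem_union_right _ ?_, hc.1, hc.2⟩
        rw [hZg, Set.Finite.mem_toFinset]
        exact hc0
      · exact absurd hc0 (pow_ne_zero 2 hac)
  have h4 : (Za ∪ Zg).card ≤ Za.card + Zg.card := Finset.card_union_le _ _
  omega

/-- If the Wronskian vanishes identically then the functions are proportional. -/
theorem wronskian_zero {f a : ℝ → ℝ} (hf : AnalyticOnNhd ℝ f univ) (ha : AnalyticOnNhd ℝ a univ)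
    (hg : ∀ x, deriv f x * a x - f x * deriv a x = 0) (ha0 : a ≠ 0) : ∃ c : ℝ, f = c • a := by
  have hfd : Differentiable ℝ f := fun x => (hf x trivial).differentiableAt
  have had : Differentiable ℝ a := fun x => (ha x trivial).differentiableAt
  obtain ⟨x0, hx0⟩ : ∃ x, a x ≠ 0 := by
    by_contra hcon
    push Not at hcon
    exact ha0 (funext hcon)
  have hopen : ∀ᶠ x in nhds x0, a x ≠ 0 := had.continuous.continuousAt.eventually_ne hx0
  obtain ⟨ε, hε, hball⟩ := Metric.eventually_nhds_iff_ball.1 hopen
  refine ⟨f x0 / a x0, ?_⟩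
  have hconst : ∀ x ∈ Metric.ball x0 ε, f x / a x = f x0 / a x0 := by
    intro x hx
    have hdiff : DifferentiableOn ℝ (fun z => f z / a z) (Metric.ball x0 ε) := by
      intro z hz
      exact ((hfd z).div (had z) (hball z hz)).differentiableWithinAt
    obtain ⟨c, hc⟩ := Metric.isOpen_ball.exists_is_const_of_deriv_eq_zero
      (convex_ball x0 ε).isPreconnected hdiff (by
        intro z hz
        have haz := hball z hz
        show deriv (fun z => f z / a z) z = 0
        rw [deriv_fun_div (hfd z) (had z) haz, hg z, zero_div])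
    rw [hc x hx, hc x0 (Metric.mem_ball_self hε)]
  apply hf.eq_of_eventuallyEq (z₀ := x0)
  · exact (analyticOnNhd_const).mul ha
  · filter_upwards [Metric.ball_mem_nhds x0 hε] with x hx
    have h1 := hconst x hx
    have h2 := hball x hx
    show f x = (f x0 / a x0) * a x
    rw [← h1]
    field_simp

end Pool.Agent.P6adfe4
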