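import Mathlib
import Pool.Agent.Lib.P6adfe4.Rolle

set_option autoImplicit false
set_option linter.style.haveILetI false

namespace Pool.Agent.P6adfe4

open Set Finset

/-- A graded family of analytic functions with bounded numbers of zeros. -/
structure Fam where
  R : ℕ → Submodule ℝ (ℝ → ℝ)
  B : ℕ → ℕ
  mono1 : ∀ C, R C ≤ R (C + 1)
  one : (1 : ℝ → ℝ) ∈ R 0
  an : ∀ C f, f ∈ R C → AnalyticOnNhd ℝ f univ
  mul : ∀ C f g, f ∈ R C → g ∈ R C → f * g ∈ R (C + 1)
  der : ∀ C f, f ∈ R C → deriv f ∈ R (C + 1)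
  zb : ∀ C f, f ∈ R C → f = 0 ∨ ZB f (B C)
  Bmono : Monotone B

namespace Fam

variable (F : Fam)

theorem mono {C D : ℕ} (h : C ≤ D) : F.R C ≤ F.R D :=
  monotone_nat_of_le_succ F.mono1 h

theorem diff {C : ℕ} {f : ℝ → ℝ} (hf : f ∈ F.R C) : Differentiable ℝ f :=
  fun x => (F.an C f hf x trivial).differentiableAt

theorem pow_mem {w : ℝ → ℝ} (hw : w ∈ F.R 0) (C : ℕ) : ∀ m, m ≤ 2 ^ C → w ^ m ∈ F.R C := by
  induction C with
  | zero =>
    intro m hm
    have : m = 0 ∨ m = 1 := by simp at hm; omega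
    rcases this with rfl | rfl
    · rw [pow_zero]; exact F.one
    · rw [pow_one]; exact hw
  | succ C ih =>
    intro m hm
    have h2 : 2 ^ (C + 1) = 2 * 2 ^ C := by rw [pow_succ]; ring
    obtain ⟨a, b, hab, ha, hb⟩ : ∃ a b, m = a + b ∧ a ≤ 2 ^ C ∧ b ≤ 2 ^ C :=
      ⟨m / 2, m - m / 2, by omega, by omega, by omega⟩
    rw [hab, pow_add]
    exact F.mul C _ _ (ih a ha) (ih b hb)

/-- Shift of a family. -/
def shift : Fam where
  R C := F.R (C + 1)
  B C := F.B (C + 1)
  mono1 C := F.mono1 (C + 1)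
  one := F.mono (Nat.zero_le _) F.one
  an C f hf := F.an (C + 1) f hf
  mul C f g hf hg := F.mul (C + 1) f g hf hg
  der C f hf := F.der (C + 1) f hf
  zb C f hf := F.zb (C + 1) f hf
  Bmono _ _ h := F.Bmono (Nat.succ_le_succ h)

/-- The submodule of functions that, multiplied by `w ^ k`, belong to `S`. -/
def divS (S : Submodule ℝ (ℝ → ℝ)) (w : ℝ → ℝ) (k : ℕ) : Submodule ℝ (ℝ → ℝ) where
  carrier := {f | AnalyticOnNhd ℝ f univ ∧ w ^ k * f ∈ S}
  add_mem' := by
    rintro f g ⟨hf, hf'⟩ ⟨hg, hg'⟩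
    refine ⟨hf.add hg, ?_⟩
    rw [mul_add]
    exact S.add_mem hf' hg'
  zero_mem' := by
    refine ⟨analyticOnNhd_const, ?_⟩
    rw [mul_zero]
    exact S.zero_mem
  smul_mem' := by
    rintro c f ⟨hf, hf'⟩
    refine ⟨analyticOnNhd_const.mul hf, ?_⟩
    rw [mul_smul_comm]
    exact S.smul_mem c hf'

theorem mem_divS {S : Submodule ℝ (ℝ → ℝ)} {w : ℝ → ℝ} {k : ℕ} {f : ℝ → ℝ} :
    f ∈ divS S w k ↔ AnalyticOnNhd ℝ f univ ∧ w ^ k * f ∈ S := Iff.rfl

/-- Adjoining the reciprocal of `w`. -/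
def recip (w : ℝ → ℝ) (hw : w ∈ F.R 0) (hw' : deriv w ∈ F.R 0) (hne : ∀ x, w x ≠ 0) : Fam where
  R C := divS (F.R (3 * C + 1)) w (2 ^ C)
  B C := F.B (3 * C + 1)
  mono1 C := by
    rintro f ⟨hf, hf'⟩
    refine ⟨hf, ?_⟩
    have h1 : w ^ 2 ^ (C + 1) * f = w ^ 2 ^ C * (w ^ 2 ^ C * f) := by
      rw [pow_succ, pow_mul]; ring
    rw [h1]
    have h2 : w ^ 2 ^ C ∈ F.R (3 * C + 1) :=
      F.mono (by omega) (F.pow_mem hw C _ (le_refl _))
    exact F.mono (by omega) (F.mul _ _ _ h2 hf')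
  one := by
    refine ⟨analyticOnNhd_const, ?_⟩
    rw [mul_one, pow_zero, pow_one]
    exact F.mono (by omega) hw
  an C f hf := hf.1
  mul C f g hf hg := by
    refine ⟨hf.1.mul hg.1, ?_⟩
    have h1 : w ^ 2 ^ (C + 1) * (f * g) = (w ^ 2 ^ C * f) * (w ^ 2 ^ C * g) := by
      rw [pow_succ, pow_mul]; ring
    rw [h1]
    exact F.mono (by omega) (F.mul _ _ _ hf.2 hg.2)
  der C f hf := by
    refine ⟨hf.1.deriv, ?_⟩
    have hfd : Differentiable ℝ f := fun x => (hf.1 x trivial).differentiableAt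
    have hwd : Differentiable ℝ w := F.diff hw
    set k := 2 ^ C with hk
    have hk1 : 1 ≤ k := Nat.one_le_two_pow
    set h := w ^ k * f with hh
    have hd : deriv h = (k : ℝ) • (w ^ (k - 1) * deriv w * f) + w ^ k * deriv f := by
      funext x
      have e1 : HasDerivAt (w ^ k) ((k : ℝ) * w x ^ (k - 1) * deriv w x) x :=
        (hwd x).hasDerivAt.pow k
      have e2 := e1.mul (hfd x).hasDerivAt
      rw [hh, e2.deriv]
      simp only [Pi.add_apply, Pi.smul_apply, Pi.mul_apply, Pi.pow_apply, smul_eq_mul]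
      ring
    have h1 : w ^ 2 ^ (C + 1) * deriv f = w ^ (k - 1) * (w * deriv h - (k : ℝ) • (deriv w * h)) := by
      rw [hd, hh, pow_succ, ← hk]
      obtain ⟨j, hj⟩ : ∃ j, k = j + 1 := ⟨k - 1, by omega⟩
      rw [hj, Nat.add_sub_cancel]
      funext x
      simp only [Pi.add_apply, Pi.sub_apply, Pi.smul_apply, Pi.mul_apply, Pi.pow_apply, smul_eq_mul]
      ring
    rw [h1]
    have hm : h ∈ F.R (3 * C + 1) := hf.2
    have m1 : w * deriv h ∈ F.R (3 * C + 3) :=
      F.mul (3 * C + 2) _ _ (F.mono (by omega) hw) (F.der _ _ hm)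
    have m2 : deriv w * h ∈ F.R (3 * C + 3) :=
      F.mono (by omega) (F.mul (3 * C + 1) _ _ (F.mono (by omega) hw') hm)
    exact F.mul (3 * C + 3) _ _ (F.mono (by omega) (F.pow_mem hw C _ (by omega)))
      (Submodule.sub_mem _ m1 (Submodule.smul_mem _ _ m2))
  zb C f hf := by
    rcases F.zb _ _ hf.2 with h | h
    · left
      funext x
      have := congrFun h x
      simp only [Pi.mul_apply, Pi.pow_apply, Pi.zero_apply] at this
      rcases mul_eq_zero.1 this with h' | h'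
      · exact absurd h' (pow_ne_zero _ (hne x))
      · exact h'
    · right
      intro Z hZ
      apply h Z
      intro x hx
      simp only [Pi.mul_apply, hZ x hx, mul_zero]
  Bmono C D h := F.Bmono (by omega)

/-- Polynomials in `y` of degree at most `d` with coefficients in `S`. -/
def Ext (S : Submodule ℝ (ℝ → ℝ)) (y : ℝ → ℝ) (d : ℕ) : Submodule ℝ (ℝ → ℝ) where
  carrier := {f | ∃ a : ℕ → ℝ → ℝ, (∀ j, a j ∈ S) ∧ f = ∑ j ∈ range (d + 1), a j * y ^ j}
  add_mem' := by
    rintro f g ⟨a, ha, rfl⟩ ⟨b, hb, rfl⟩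
    refine ⟨fun j => a j + b j, fun j => S.add_mem (ha j) (hb j), ?_⟩
    rw [← Finset.sum_add_distrib]
    exact Finset.sum_congr rfl (fun j _ => by rw [add_mul])
  zero_mem' := ⟨fun _ => 0, fun _ => S.zero_mem, by simp⟩
  smul_mem' := by
    rintro c f ⟨a, ha, rfl⟩
    refine ⟨fun j => c • a j, fun j => S.smul_mem c (ha j), ?_⟩
    rw [Finset.smul_sum]
    exact Finset.sum_congr rfl (fun j _ => by rw [smul_mul_assoc])

theorem mem_Ext {S : Submodule ℝ (ℝ → ℝ)} {y : ℝ → ℝ} {d : ℕ} {f : ℝ → ℝ} :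
    f ∈ Ext S y d ↔ ∃ a : ℕ → ℝ → ℝ, (∀ j, a j ∈ S) ∧ f = ∑ j ∈ range (d + 1), a j * y ^ j :=
  Iff.rfl

theorem Ext_mono {S S' : Submodule ℝ (ℝ → ℝ)} {y : ℝ → ℝ} {d d' : ℕ} (hS : S ≤ S')
    (hd : d ≤ d') : Ext S y d ≤ Ext S' y d' := by
  rintro f ⟨a, ha, rfl⟩
  refine ⟨fun j => if j < d + 1 then a j else 0, fun j => ?_, ?_⟩
  · by_cases h : j < d + 1
    · simp only [h, if_true]; exact hS (ha j)
    · simp only [h, if_false]; exact S'.zero_mem
  · have hsub : range (d + 1) ⊆ range (d' + 1) := Finset.range_mono (by omega)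
    rw [← Finset.sum_subset hsub]
    · apply Finset.sum_congr rfl
      intro j hj
      show a j * y ^ j = (if j < d + 1 then a j else 0) * y ^ j
      rw [if_pos (Finset.mem_range.1 hj)]
    · intro j _ hj
      rw [Finset.mem_range] at hj
      show (if j < d + 1 then a j else 0) * y ^ j = 0
      rw [if_neg hj, zero_mul]

theorem monomial_mem {S : Submodule ℝ (ℝ → ℝ)} {y : ℝ → ℝ} {d k : ℕ} {c : ℝ → ℝ} (hc : c ∈ S)
    (hk : k ≤ d) : c * y ^ k ∈ Ext S y d := by
  refine ⟨fun j => if j = k then c else 0, fun j => ?_, ?_⟩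
  · by_cases h : j = k
    · simp only [h, if_true]; exact hc
    · simp only [h, if_false]; exact S.zero_mem
  · rw [Finset.sum_eq_single k]
    · simp
    · intro j _ hj; simp [hj]
    · intro h; exact absurd (Finset.mem_range.2 (by omega)) h

theorem base_mem {S : Submodule ℝ (ℝ → ℝ)} {y : ℝ → ℝ} {d : ℕ} {c : ℝ → ℝ} (hc : c ∈ S) :
    c ∈ Ext S y d := by
  have := monomial_mem (y := y) (d := d) hc (Nat.zero_le d)
  rwa [pow_zero, mul_one] at this

theorem Ext_mul {C : ℕ} {y f g : ℝ → ℝ} {d e : ℕ} (hf : f ∈ Ext (F.R C) y d)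
    (hg : g ∈ Ext (F.R C) y e) : f * g ∈ Ext (F.R (C + 1)) y (d + e) := by
  obtain ⟨a, ha, rfl⟩ := hf
  obtain ⟨b, hb, rfl⟩ := hg
  rw [Finset.sum_mul_sum]
  refine Submodule.sum_mem _ (fun i hi => Submodule.sum_mem _ (fun j hj => ?_))
  have h : a i * y ^ i * (b j * y ^ j) = (a i * b j) * y ^ (i + j) := by
    rw [pow_add]; ring
  rw [h]
  rw [Finset.mem_range] at hi hj
  exact monomial_mem (F.mul C _ _ (ha i) (hb j)) (by omega)

theorem Ext_cmul {C : ℕ} {y f g : ℝ → ℝ} {d : ℕ} (hf : f ∈ F.R C)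
    (hg : g ∈ Ext (F.R C) y d) : f * g ∈ Ext (F.R (C + 1)) y d := by
  have := F.Ext_mul (base_mem (y := y) (d := 0) hf) hg
  rwa [zero_add] at this

theorem an_Ext {C : ℕ} {y f : ℝ → ℝ} {d : ℕ} (hy : AnalyticOnNhd ℝ y univ)
    (hf : f ∈ Ext (F.R C) y d) : AnalyticOnNhd ℝ f univ := by
  obtain ⟨a, ha, rfl⟩ := hf
  have : ∀ s : Finset ℕ, AnalyticOnNhd ℝ (∑ j ∈ s, a j * y ^ j) univ := by
    intro s
    induction s using Finset.induction_on with
    | empty => rw [Finset.sum_empty]; exact analyticOnNhd_const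
    | insert i s hi ih =>
      rw [Finset.sum_insert hi]
      exact ((F.an C _ (ha i)).mul (hy.pow i)).add ih
  exact this _

theorem Ext_der {C : ℕ} {y f q r : ℝ → ℝ} {d : ℕ} (hf : f ∈ Ext (F.R C) y d)
    (hq : q ∈ F.R 0) (hr : r ∈ F.R 0) (hyd : ∀ x, HasDerivAt y (q x * y x + r x) x) :
    deriv f ∈ Ext (F.R (C + 1)) y d := by
  obtain ⟨a, ha, rfl⟩ := hf
  have hmon : ∀ j, deriv (a j * y ^ j)
      = (deriv (a j) + (j : ℝ) • (q * a j)) * y ^ j + ((j : ℝ) • (a j * r)) * y ^ (j - 1) := by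
    intro j
    funext x
    have e1 : HasDerivAt (y ^ j) ((j : ℝ) * y x ^ (j - 1) * (q x * y x + r x)) x :=
      (hyd x).pow j
    have e2 := ((F.diff (ha j)) x).hasDerivAt.mul e1
    rw [e2.deriv]
    simp only [Pi.add_apply, Pi.smul_apply, Pi.mul_apply, Pi.pow_apply, smul_eq_mul]
    rcases j with _ | j
    · simp
    · rw [Nat.add_sub_cancel]; push_cast; ring
  have hsum : deriv (∑ j ∈ range (d + 1), a j * y ^ j)
      = ∑ j ∈ range (d + 1), deriv (a j * y ^ j) := by
    funext x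
    rw [Finset.sum_apply]
    have hyD : Differentiable ℝ y := fun x => (hyd x).differentiableAt
    have : HasDerivAt (∑ j ∈ range (d + 1), a j * y ^ j)
        (∑ j ∈ range (d + 1), deriv (a j * y ^ j) x) x := by
      apply HasDerivAt.sum
      intro j _
      exact ((F.diff (ha j) x).mul ((hyD x).pow j)).hasDerivAt
    exact this.deriv
  rw [hsum]
  refine Submodule.sum_mem _ (fun j hj => ?_)
  rw [hmon j]
  rw [Finset.mem_range] at hj
  refine Submodule.add_mem _ (monomial_mem ?_ (by omega)) (monomial_mem ?_ (by omega))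
  · exact Submodule.add_mem _ (F.der _ _ (ha j))
      (Submodule.smul_mem _ _ (F.mul _ _ _ (F.mono (Nat.zero_le _) hq) (ha j)))
  · exact Submodule.smul_mem _ _ (F.mul _ _ _ (ha j) (F.mono (Nat.zero_le _) hr))

/-- The zero bound for extensions. -/
def Zf (B : ℕ → ℕ) : ℕ → ℕ → ℕ
  | 0, C => B C
  | d + 1, C => Zf B d (C + 2) + 2 * B C + 1

theorem Zf_le {B : ℕ → ℕ} (hB : Monotone B) (d : ℕ) : ∀ C,
    Zf B d C ≤ (2 * d + 1) * (B (C + 2 * d) + 1) := by
  induction d with
  | zero => intro C; simp [Zf]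
  | succ d ih =>
    intro C
    have h1 := ih (C + 2)
    have h2 : C + 2 + 2 * d = C + 2 * (d + 1) := by ring
    rw [h2] at h1
    have h3 : B C ≤ B (C + 2 * (d + 1)) := hB (by omega)
    rw [Zf]
    nlinarith

theorem step {C k : ℕ} {f a : ℝ → ℝ} (hf : AnalyticOnNhd ℝ f univ) (ha : a ∈ F.R C) (ha0 : a ≠ 0)
    (hW : (deriv f * a - f * deriv a) = 0 ∨ ZB (deriv f * a - f * deriv a) k) :
    f = 0 ∨ ZB f (k + 2 * F.B C + 1) := by
  have haz : ZB a (F.B C) := (F.zb C a ha).resolve_left ha0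
  rcases hW with h | h
  · obtain ⟨c, hc⟩ := wronskian_zero hf (F.an C a ha) (fun x => congrFun h x) ha0
    by_cases hc0 : c = 0
    · left; rw [hc, hc0, zero_smul]
    · right
      apply ZB.mono _ (show F.B C ≤ k + 2 * F.B C + 1 by omega)
      intro Z hZ
      apply haz Z
      intro x hx
      have := hZ x hx
      rw [hc] at this
      simp only [Pi.smul_apply, smul_eq_mul] at this
      exact (mul_eq_zero.1 this).resolve_left hc0
  · right
    exact rolle (fun x => (hf x trivial).differentiableAt) (F.diff ha) haz h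

theorem zb_exp {y q : ℝ → ℝ} (hy : AnalyticOnNhd ℝ y univ) (hq : q ∈ F.R 0)
    (hyd : ∀ x, HasDerivAt y (q x * y x) x) (hne : ∀ x, y x ≠ 0) (d : ℕ) :
    ∀ C f, f ∈ Ext (F.R C) y d → f = 0 ∨ ZB f (Zf F.B d C) := by
  have hyd' : ∀ x, HasDerivAt y (q x * y x + (0 : ℝ → ℝ) x) x := by
    intro x; simpa using hyd x
  induction d with
  | zero =>
    rintro C f ⟨a, ha, rfl⟩
    rw [zero_add, Finset.sum_range_one, pow_zero, mul_one]
    exact F.zb C _ (ha 0)
  | succ d ih =>
    intro C f hf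
    have hfan := F.an_Ext hy hf
    obtain ⟨a, ha, hfe⟩ := hf
    rw [Finset.sum_range_succ', pow_zero, mul_one] at hfe
    set f₁ : ℝ → ℝ := ∑ j ∈ range (d + 1), a (j + 1) * y ^ j with hf₁
    have hf₁m : f₁ ∈ Ext (F.R C) y d := ⟨fun j => a (j + 1), fun j => ha _, rfl⟩
    have hf1 : f = a 0 + y * f₁ := by
      rw [hfe, hf₁, Finset.mul_sum, add_comm]
      congr 1
      apply Finset.sum_congr rfl
      intro j _
      rw [pow_succ]; ring
    have hcancel : ∀ h : ℝ → ℝ, ∀ k, (h = 0 ∨ ZB h k) → (y * h = 0 ∨ ZB (y * h) k) := by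
      intro h k hh
      rcases hh with hh | hh
      · left; rw [hh, mul_zero]
      · right
        intro Z hZ
        apply hh Z
        intro x hx
        have := hZ x hx
        rw [Pi.mul_apply] at this
        exact (mul_eq_zero.1 this).resolve_left (hne x)
    by_cases ha0 : a 0 = 0
    · have h1 : f = y * f₁ := by rw [hf1, ha0, zero_add]
      rw [h1]
      rcases hcancel f₁ _ (ih (C + 2) f₁ (Ext_mono (F.mono (by omega)) (le_refl d) hf₁m)) with h | h
      · left; exact h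
      · right; exact h.mono (by rw [Zf]; omega)
    · rw [Zf]
      apply F.step hfan (ha 0) ha0
      have hf₁d : Differentiable ℝ f₁ := fun x => (F.an_Ext hy hf₁m x trivial).differentiableAt
      have hfder : deriv f = deriv (a 0) + y * (q * f₁ + deriv f₁) := by
        funext x
        rw [hf1]
        have e := (((F.diff (ha 0)) x).hasDerivAt).add ((hyd x).mul (hf₁d x).hasDerivAt)
        rw [e.deriv]
        simp only [Pi.add_apply, Pi.mul_apply]
        ring
      have hW : deriv f * a 0 - f * deriv (a 0)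
          = y * ((q * f₁ + deriv f₁) * a 0 - f₁ * deriv (a 0)) := by
        rw [hfder, hf1]; ring
      rw [hW]
      apply hcancel
      apply ih (C + 2)
      apply Submodule.sub_mem
      · rw [mul_comm]
        refine F.Ext_cmul (F.mono (by omega) (ha 0)) (Submodule.add_mem _ ?_ ?_)
        · exact F.Ext_cmul (F.mono (by omega) hq) hf₁m
        · exact F.Ext_der hf₁m hq (Submodule.zero_mem _) hyd'
      · rw [mul_comm]
        exact F.Ext_cmul (F.der _ _ (ha 0)) (Ext_mono (F.mono (by omega)) (le_refl d) hf₁m)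

theorem zb_log {y r : ℝ → ℝ} (hy : AnalyticOnNhd ℝ y univ) (hr : r ∈ F.R 0)
    (hyd : ∀ x, HasDerivAt y (r x) x) (d : ℕ) :
    ∀ C f, f ∈ Ext (F.R C) y d → f = 0 ∨ ZB f (Zf F.B d C) := by
  have hyd' : ∀ x, HasDerivAt y ((0 : ℝ → ℝ) x * y x + r x) x := by
    intro x; simpa using hyd x
  induction d with
  | zero =>
    rintro C f ⟨a, ha, rfl⟩
    rw [zero_add, Finset.sum_range_one, pow_zero, mul_one]
    exact F.zb C _ (ha 0)
  | succ d ih =>
    intro C f hf
    have hfan := F.an_Ext hy hf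
    obtain ⟨a, ha, hfe⟩ := hf
    rw [Finset.sum_range_succ] at hfe
    set h₀ : ℝ → ℝ := ∑ j ∈ range (d + 1), a j * y ^ j with hh₀
    have hm : h₀ ∈ Ext (F.R C) y d := ⟨fun j => a j, fun j => ha _, rfl⟩
    by_cases ha0 : a (d + 1) = 0
    · have h1 : f = h₀ := by rw [hfe, ha0, zero_mul, add_zero]
      rw [h1]
      rcases ih (C + 2) h₀ (Ext_mono (F.mono (by omega)) (le_refl d) hm) with h | h
      · left; exact h
      · right; exact h.mono (by rw [Zf]; omega)
    · rw [Zf]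
      apply F.step hfan (ha (d + 1)) ha0
      apply ih (C + 2)
      have hd₀ : Differentiable ℝ h₀ := fun x => (F.an_Ext hy hm x trivial).differentiableAt
      have hfder : deriv f = deriv h₀ + deriv (a (d + 1)) * y ^ (d + 1)
          + ((d : ℝ) + 1) • (a (d + 1) * r) * y ^ d := by
        funext x
        rw [hfe]
        have e1 : HasDerivAt (y ^ (d + 1)) (((d + 1 : ℕ) : ℝ) * y x ^ d * r x) x := by
          have := (hyd x).pow (d + 1)
          simpa using this
        have e := ((hd₀ x).hasDerivAt).add (((F.diff (ha (d + 1))) x).hasDerivAt.mul e1)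
        rw [e.deriv]
        simp only [Pi.add_apply, Pi.mul_apply, Pi.pow_apply, Pi.smul_apply, smul_eq_mul]
        push_cast
        ring
      have hW : deriv f * a (d + 1) - f * deriv (a (d + 1))
          = deriv h₀ * a (d + 1) - h₀ * deriv (a (d + 1))
            + ((d : ℝ) + 1) • ((a (d + 1) * a (d + 1)) * r) * y ^ d := by
        rw [hfder, hfe]
        funext x
        simp only [Pi.add_apply, Pi.mul_apply, Pi.pow_apply, Pi.smul_apply, smul_eq_mul,
          Pi.sub_apply]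
        ring
      rw [hW]
      refine Submodule.add_mem _ (Submodule.sub_mem _ ?_ ?_) ?_
      · rw [mul_comm]
        exact F.Ext_cmul (F.mono (by omega) (ha _))
          (F.Ext_der hm (Submodule.zero_mem _) hr hyd')
      · rw [mul_comm]
        exact F.Ext_cmul (F.der _ _ (ha _)) (Ext_mono (F.mono (by omega)) (le_refl d) hm)
      · apply monomial_mem _ (le_refl d)
        apply Submodule.smul_mem
        exact F.mul (C + 1) _ _ (F.mul C _ _ (ha _) (ha _)) (F.mono (by omega) hr)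

/-- The extension of a family by one function, given a zero bound. -/
def ext (y q r : ℝ → ℝ) (hy : AnalyticOnNhd ℝ y univ) (hq : q ∈ F.R 0) (hr : r ∈ F.R 0)
    (hyd : ∀ x, HasDerivAt y (q x * y x + r x) x)
    (hz : ∀ d C f, f ∈ Ext (F.R C) y d → f = 0 ∨ ZB f (Zf F.B d C)) : Fam where
  R C := Ext (F.R C) y (2 ^ C)
  B C := 2 ^ (C + 2) * (F.B (C + 2 ^ (C + 1)) + 1)
  mono1 C := Ext_mono (F.mono1 C) (Nat.pow_le_pow_right (by norm_num) (by omega))
  one := base_mem F.one
  an C f hf := F.an_Ext hy hf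
  mul C f g hf hg := by
    have h := F.Ext_mul hf hg
    have e : 2 ^ C + 2 ^ C = 2 ^ (C + 1) := by rw [pow_succ]; ring
    rwa [e] at h
  der C f hf := Ext_mono (le_refl _) (Nat.pow_le_pow_right (by norm_num) (by omega))
    (F.Ext_der hf hq hr hyd)
  zb C f hf := by
    rcases hz _ _ _ hf with h | h
    · left; exact h
    · right
      apply h.mono
      refine (Zf_le F.Bmono _ _).trans ?_
      have e1 : 2 * 2 ^ C = 2 ^ (C + 1) := by rw [pow_succ]; ring
      rw [e1]
      apply Nat.mul_le_mul_right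
      have e2 : 2 ^ (C + 2) = 2 * 2 ^ (C + 1) := by rw [pow_succ]; ring
      have e3 : 1 ≤ 2 ^ (C + 1) := Nat.one_le_two_pow
      omega
  Bmono := by
    intro C D h
    have h1 : 2 ^ (C + 1) ≤ 2 ^ (D + 1) := Nat.pow_le_pow_right (by norm_num) (by omega)
    have h2 : F.B (C + 2 ^ (C + 1)) ≤ F.B (D + 2 ^ (D + 1)) := F.Bmono (by omega)
    exact Nat.mul_le_mul (Nat.pow_le_pow_right (by norm_num) (by omega)) (by omega)

end Fam

end Pool.Agent.P6adfe4
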