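import Mathlib

set_option autoImplicit false
set_option linter.style.haveILetI false

namespace Pool.Agent.P6adfe4

open Primrec

theorem primrec_forall_lt {β : Type*} [Primcodable β] {R : ℕ → β → Prop} (hf : PrimrecRel R)
    {g : β → ℕ} (hg : Primrec g) : PrimrecPred fun b => ∀ x < g b, R x b :=
  (hf.forall_mem_list.comp (list_range.comp hg) Primrec.id).of_eq (by simp)

theorem primrec_sum {β : Type*} [Primcodable β] {f : β → ℕ → ℕ} (hf : Primrec₂ f)
    {g : β → ℕ} (hg : Primrec g) : Primrec fun b => ∑ i ∈ Finset.range (g b), f b i := by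
  have h : Primrec fun b => (Nat.rec (motive := fun _ => ℕ) 0
      (fun n IH => IH + f b n) (g b) : ℕ) := by
    refine nat_rec' (h := fun (b : β) (p : ℕ × ℕ) => p.2 + f b p.1) hg (const 0) ?_
    exact (nat_add.comp (snd.comp snd) (hf.comp fst (fst.comp snd))).to₂
  refine h.of_eq (fun b => ?_)
  induction g b with
  | zero => simp
  | succ n ih => rw [Finset.sum_range_succ, ← ih]

section reduction

variable (val : ℕ → ℕ) (rep : ℕ → ℕ)

open Classical in
/-- Canonical codes. -/
def DD (a : ℕ) : Prop := ∀ b < a, val b ≠ val a

open Classical in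
/-- The rank function. -/
noncomputable def rk (a : ℕ) : ℕ := ∑ b ∈ Finset.range a, if DD val b then 1 else 0

open Classical in
/-- The canonical code. -/
noncomputable def can (a : ℕ) : ℕ :=
  ∑ b ∈ Finset.range a, if ∀ x < b + 1, val x ≠ val a then 1 else 0

open Classical in
/-- Enumeration of canonical codes. -/
noncomputable def en (n : ℕ) : ℕ :=
  Nat.findGreatest (fun a => rk val a ≤ n) (∑ m ∈ Finset.range (n + 1), rep m)

variable {val rep}

theorem primrec_DD (hdec : PrimrecRel (fun a b => val a = val b)) : PrimrecPred (DD val) :=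
  primrec_forall_lt (R := fun x b => val x ≠ val b) (PrimrecPred.not hdec) Primrec.id

theorem primrec_rk (hdec : PrimrecRel (fun a b => val a = val b)) : Primrec (rk val) := by
  classical
  refine primrec_sum (f := fun (_ : ℕ) b => if DD val b then 1 else 0) ?_ Primrec.id
  exact (Primrec.ite ((primrec_DD hdec).comp snd) (const 1) (const 0)).to₂

theorem primrec_can (hdec : PrimrecRel (fun a b => val a = val b)) : Primrec (can val) := by
  classical
  refine primrec_sum (f := fun (a : ℕ) b => if ∀ x < b + 1, val x ≠ val a then 1 else 0) ?_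
    Primrec.id
  have h : PrimrecPred fun p : ℕ × ℕ => ∀ x < p.2 + 1, val x ≠ val p.1 := by
    refine primrec_forall_lt (β := ℕ × ℕ) (R := fun x b => val x ≠ val b.1) ?_ (succ.comp snd)
    exact PrimrecPred.not (hdec.comp fst (fst.comp snd))
  exact (Primrec.ite h (const 1) (const 0)).to₂

theorem primrec_en (hdec : PrimrecRel (fun a b => val a = val b)) (hrep : Primrec rep) :
    Primrec (en val rep) := by
  classical
  refine nat_findGreatest ?_ ?_
  · exact primrec_sum (f := fun (_ : ℕ) b => rep b) (hrep.comp snd).to₂ succ
  · exact nat_le.comp ((primrec_rk hdec).comp snd) fst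

theorem can_eq (a : ℕ) : ∃ b, b ≤ a ∧ can val a = b ∧ val b = val a ∧ DD val b := by
  classical
  have hex : ∃ b, val b = val a := ⟨a, rfl⟩
  refine ⟨Nat.find hex, Nat.find_min' hex rfl, ?_, Nat.find_spec hex, ?_⟩
  · unfold can
    have h1 : ∀ b, (∀ x < b + 1, val x ≠ val a) ↔ b < Nat.find hex := by
      intro b
      constructor
      · intro h
        by_contra hcon
        exact h (Nat.find hex) (by omega) (Nat.find_spec hex)
      · intro h x hx hxa
        exact Nat.find_min hex (by omega : x < Nat.find hex) hxa
    simp only [h1]
    rw [Finset.sum_ite, Finset.sum_const_zero, add_zero, Finset.sum_const, smul_eq_mul, mul_one]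
    have h2 : Finset.filter (fun x => x < Nat.find hex) (Finset.range a)
        = Finset.range (Nat.find hex) := by
      ext x
      have := Nat.find_min' hex (rfl : val a = val a)
      simp only [Finset.mem_filter, Finset.mem_range]
      omega
    rw [h2, Finset.card_range]
  · intro b hb hbv
    apply Nat.find_min hex hb
    rw [hbv, Nat.find_spec hex]

theorem can_le (a : ℕ) : can val a ≤ a := by
  obtain ⟨b, h1, h2, -, -⟩ := can_eq (val := val) a
  omega

theorem val_can (a : ℕ) : val (can val a) = val a := by
  obtain ⟨b, h1, h2, h3, -⟩ := can_eq (val := val) a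
  rw [h2, h3]

theorem DD_can (a : ℕ) : DD val (can val a) := by
  obtain ⟨b, h1, h2, h3, h4⟩ := can_eq (val := val) a
  rw [h2]; exact h4

theorem DD_inj {a b : ℕ} (ha : DD val a) (hb : DD val b) (h : val a = val b) : a = b := by
  rcases lt_trichotomy a b with h1 | h1 | h1
  · exact absurd h (hb a h1)
  · exact h1
  · exact absurd h.symm (ha b h1)

theorem can_congr {a b : ℕ} (h : val a = val b) : can val a = can val b :=
  DD_inj (DD_can a) (DD_can b) (by rw [val_can (val := val), val_can (val := val), h])

theorem can_of_DD {a : ℕ} (h : DD val a) : can val a = a :=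
  DD_inj (DD_can a) h (val_can a)

theorem rk_succ (a : ℕ) [Decidable (DD val a)] : rk val (a + 1) = rk val a + if DD val a then 1 else 0 := by
  classical
  unfold rk
  rw [Finset.sum_range_succ]
  congr

theorem rk_mono : Monotone (rk val) := by
  classical
  apply monotone_nat_of_le_succ
  intro n
  rw [rk_succ]
  omega

theorem rk_lt {a b : ℕ} (ha : DD val a) (h : a < b) : rk val a < rk val b := by
  classical
  have h1 : rk val (a + 1) ≤ rk val b := rk_mono h
  rw [rk_succ, if_pos ha] at h1
  omega

theorem rk_big (hval : ∀ m, val (rep m) = m) (n : ℕ) :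
    n + 1 ≤ rk val ((∑ m ∈ Finset.range (n + 1), rep m) + 1) := by
  classical
  set M := ∑ m ∈ Finset.range (n + 1), rep m with hM
  have h1 : rk val (M + 1) = ((Finset.range (M + 1)).filter (DD val)).card := by
    unfold rk
    rw [Finset.card_filter]
  rw [h1]
  have h2 : ((Finset.range (n + 1)).image (fun m => can val (rep m)))
      ⊆ (Finset.range (M + 1)).filter (DD val) := by
    intro x hx
    obtain ⟨m, hm, rfl⟩ := Finset.mem_image.1 hx
    rw [Finset.mem_filter, Finset.mem_range]
    refine ⟨?_, DD_can _⟩
    have h3 : rep m ≤ M := Finset.single_le_sum (f := rep) (fun i _ => Nat.zero_le _) hm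
    have := can_le (val := val) (rep m)
    omega
  calc n + 1 = (Finset.range (n + 1)).card := (Finset.card_range _).symm
    _ = ((Finset.range (n + 1)).image (fun m => can val (rep m))).card := by
        rw [Finset.card_image_of_injOn]
        intro a _ b _ hab
        have := congrArg val hab
        simp only [val_can, hval] at this
        exact this
    _ ≤ _ := Finset.card_le_card h2

theorem en_spec (hval : ∀ m, val (rep m) = m) (n : ℕ) :
    DD val (en val rep n) ∧ rk val (en val rep n) = n := by
  classical
  set M := ∑ m ∈ Finset.range (n + 1), rep m with hM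
  have h0 : rk val 0 ≤ n := by unfold rk; simp
  have h1 : rk val (en val rep n) ≤ n :=
    Nat.findGreatest_spec (P := fun a => rk val a ≤ n) (Nat.zero_le M) h0
  have h2 : en val rep n ≤ M := Nat.findGreatest_le M
  have h3 : n + 1 ≤ rk val (en val rep n + 1) := by
    rcases Nat.lt_or_ge (en val rep n) M with h | h
    · have := Nat.findGreatest_is_greatest (P := fun a => rk val a ≤ n) (n := M)
        (Nat.lt_succ_self (en val rep n)) h
      push Not at this
      exact this
    · have : en val rep n = M := le_antisymm h2 h
      rw [this]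
      exact rk_big hval n
  rw [rk_succ] at h3
  by_cases hD : DD val (en val rep n)
  · rw [if_pos hD] at h3
    exact ⟨hD, by omega⟩
  · rw [if_neg hD] at h3
    omega

theorem en_rk (hval : ∀ m, val (rep m) = m) {a : ℕ} (ha : DD val a) :
    en val rep (rk val a) = a := by
  obtain ⟨h1, h2⟩ := en_spec hval (rk val a)
  rcases lt_trichotomy (en val rep (rk val a)) a with h | h | h
  · have := rk_lt h1 h; omega
  · exact h
  · have := rk_lt ha h; omega

/-- The copy obtained from a numbering. -/
noncomputable def cpy (hval : ∀ m, val (rep m) = m) : ℕ ≃ ℕ where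
  toFun m := rk val (can val (rep m))
  invFun n := val (en val rep n)
  left_inv m := by
    show val (en val rep (rk val (can val (rep m)))) = m
    rw [en_rk hval (DD_can _), val_can (val := val), hval]
  right_inv n := by
    show rk val (can val (rep (val (en val rep n)))) = n
    obtain ⟨h1, h2⟩ := en_spec hval n
    rw [can_congr (hval (val (en val rep n))), can_of_DD h1, h2]

theorem cpy_primrec (hdec : PrimrecRel (fun a b => val a = val b)) (hrep : Primrec rep)
    (hval : ∀ m, val (rep m) = m) : Primrec (cpy hval) :=
  (primrec_rk hdec).comp ((primrec_can hdec).comp hrep)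

theorem cpy_lift (hdec : PrimrecRel (fun a b => val a = val b)) (hrep : Primrec rep)
    (hval : ∀ m, val (rep m) = m) {f fhat : ℕ → ℕ} (hf : Primrec fhat)
    (h : ∀ a, val (fhat a) = f (val a)) :
    Primrec (fun n => cpy hval (f ((cpy hval).symm n))) := by
  refine ((primrec_rk hdec).comp ((primrec_can hdec).comp
    (hf.comp (primrec_en hdec hrep)))).of_eq (fun n => ?_)
  show rk val (can val (fhat (en val rep n))) = rk val (can val (rep (f (val (en val rep n)))))
  congr 1
  apply can_congr
  rw [h, hval]

theorem cpy_not_primrec (hdec : PrimrecRel (fun a b => val a = val b))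
    (hval : ∀ m, val (rep m) = m) (hnp : ¬ Primrec val) : ¬ Primrec (cpy hval).symm := by
  intro h
  apply hnp
  refine (h.comp ((primrec_rk hdec).comp (primrec_can hdec))).of_eq (fun a => ?_)
  show val (en val rep (rk val (can val a))) = val a
  rw [en_rk hval (DD_can a), val_can (val := val)]

end reduction

end Pool.Agent.P6adfe4
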