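import Mathlib

set_option autoImplicit false
set_option linter.style.haveILetI false

namespace Pool.Agent.P6adfe4

/-- Terms for positive functions of one variable. -/
inductive Tm : Type
  | X : Tm
  | C : ℕ → Tm
  | Add : Tm → Tm → Tm
  | Mul : Tm → Tm → Tm
  | Pow : Tm → Tm → Tm

namespace Tm

/-- Evaluation on natural numbers. -/
def ev : Tm → ℕ → ℕ
  | X, N => N
  | C n, _ => n + 1
  | Add a b, N => a.ev N + b.ev N
  | Mul a b, N => a.ev N * b.ev N
  | Pow a b, N => a.ev N ^ b.ev N

/-- Size. -/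
def size : Tm → ℕ
  | X => 1
  | C _ => 1
  | Add a b => a.size + b.size + 1
  | Mul a b => a.size + b.size + 1
  | Pow a b => a.size + b.size + 1

/-- Coding. -/
def code : Tm → ℕ
  | X => 0
  | C n => 4 * n + 1
  | Add a b => 4 * Nat.pair a.code b.code + 2
  | Mul a b => 4 * Nat.pair a.code b.code + 3
  | Pow a b => 4 * Nat.pair a.code b.code + 4

theorem ev_pos (t : Tm) (N : ℕ) (hN : 1 ≤ N) : 1 ≤ t.ev N := by
  induction t with
  | X => exact hN
  | C n => exact Nat.succ_le_succ (Nat.zero_le _)
  | Add a b iha ihb => simp only [ev]; omega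
  | Mul a b iha ihb => exact Nat.mul_pos iha ihb
  | Pow a b iha _ => exact Nat.pow_pos iha

/-- Every term is constant or strictly increasing on positive numbers. -/
theorem const_or_strict (t : Tm) : (∀ N M, 1 ≤ N → 1 ≤ M → t.ev N = t.ev M) ∨
    (∀ N, 1 ≤ N → t.ev N < t.ev (N + 1)) ∧ (∀ N, 1 ≤ N → N ≤ t.ev N) := by
  induction t with
  | X => right; exact ⟨fun N _ => Nat.lt_succ_self N, fun N _ => le_refl N⟩
  | C n => left; intro N M _ _; rfl
  | Add a b iha ihb =>
    rcases iha with ha | ⟨ha, ha'⟩ <;> rcases ihb with hb | ⟨hb, hb'⟩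
    · left; intro N M hN hM; simp only [ev]; rw [ha N M hN hM, hb N M hN hM]
    · right
      refine ⟨fun N hN => ?_, fun N hN => ?_⟩
      · simp only [ev]; rw [ha (N + 1) N (by omega) hN]; have := hb N hN; omega
      · simp only [ev]; have := hb' N hN; omega
    · right
      refine ⟨fun N hN => ?_, fun N hN => ?_⟩
      · simp only [ev]; rw [hb (N + 1) N (by omega) hN]; have := ha N hN; omega
      · simp only [ev]; have := ha' N hN; omega
    · right
      refine ⟨fun N hN => ?_, fun N hN => ?_⟩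
      · simp only [ev]; have := hb N hN; have := ha N hN; omega
      · simp only [ev]; have := ha' N hN; omega
  | Mul a b iha ihb =>
    rcases iha with ha | ⟨ha, ha'⟩ <;> rcases ihb with hb | ⟨hb, hb'⟩
    · left; intro N M hN hM; simp only [ev]; rw [ha N M hN hM, hb N M hN hM]
    · right
      refine ⟨fun N hN => ?_, fun N hN => ?_⟩
      · simp only [ev]; rw [ha (N + 1) N (by omega) hN]
        exact Nat.mul_lt_mul_of_pos_left (hb N hN) (ev_pos a N hN)
      · simp only [ev]
        calc N ≤ b.ev N := hb' N hN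
          _ = 1 * b.ev N := (one_mul _).symm
          _ ≤ a.ev N * b.ev N := Nat.mul_le_mul_right _ (ev_pos a N hN)
    · right
      refine ⟨fun N hN => ?_, fun N hN => ?_⟩
      · simp only [ev]; rw [hb (N + 1) N (by omega) hN]
        exact Nat.mul_lt_mul_of_pos_right (ha N hN) (ev_pos b N hN)
      · simp only [ev]
        calc N ≤ a.ev N := ha' N hN
          _ = a.ev N * 1 := (mul_one _).symm
          _ ≤ a.ev N * b.ev N := Nat.mul_le_mul_left _ (ev_pos b N hN)
    · right
      refine ⟨fun N hN => ?_, fun N hN => ?_⟩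
      · simp only [ev]
        exact Nat.mul_lt_mul'' (ha N hN) (hb N hN)
      · simp only [ev]
        calc N ≤ a.ev N := ha' N hN
          _ = a.ev N * 1 := (mul_one _).symm
          _ ≤ a.ev N * b.ev N := Nat.mul_le_mul_left _ (ev_pos b N hN)
  | Pow a b iha ihb =>
    have hbm : ∀ N, 1 ≤ N → b.ev N ≤ b.ev (N + 1) := by
      intro N hN
      rcases ihb with hb | ⟨hb, -⟩
      · exact (hb N (N + 1) hN (by omega)).le
      · exact (hb N hN).le
    rcases iha with ha | ⟨ha, ha'⟩
    · rcases ihb with hb | ⟨hb, hb'⟩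
      · left; intro N M hN hM; simp only [ev]; rw [ha N M hN hM, hb N M hN hM]
      · rcases Nat.lt_or_ge (a.ev 1) 2 with h1 | h1
        · left
          intro N M hN hM
          have h2 := ev_pos a 1 (le_refl 1)
          have h3 : a.ev 1 = 1 := by omega
          simp only [ev]
          rw [ha N 1 hN (le_refl 1), ha M 1 hM (le_refl 1), h3, one_pow, one_pow]
        · right
          refine ⟨fun N hN => ?_, fun N hN => ?_⟩
          · simp only [ev]
            rw [ha N 1 hN (le_refl 1), ha (N + 1) 1 (by omega) (le_refl 1)]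
            exact Nat.pow_lt_pow_right (by omega) (hb N hN)
          · simp only [ev]
            rw [ha N 1 hN (le_refl 1)]
            calc N ≤ b.ev N := hb' N hN
              _ ≤ 2 ^ b.ev N := Nat.lt_two_pow_self.le
              _ ≤ a.ev 1 ^ b.ev N := Nat.pow_le_pow_left h1 _
    · right
      refine ⟨fun N hN => ?_, fun N hN => ?_⟩
      · simp only [ev]
        calc a.ev N ^ b.ev N < a.ev (N + 1) ^ b.ev N :=
              Nat.pow_lt_pow_left (ha N hN) (by have := ev_pos b N hN; omega)
          _ ≤ a.ev (N + 1) ^ b.ev (N + 1) :=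
              Nat.pow_le_pow_right (ev_pos a (N + 1) (by omega)) (hbm N hN)
      · simp only [ev]
        calc N ≤ a.ev N := ha' N hN
          _ = a.ev N ^ 1 := (pow_one _).symm
          _ ≤ a.ev N ^ b.ev N := Nat.pow_le_pow_right (ev_pos a N hN) (ev_pos b N hN)

theorem const_iff (t : Tm) : t.ev 1 = t.ev 2 ↔ ∀ N M, 1 ≤ N → 1 ≤ M → t.ev N = t.ev M := by
  constructor
  · intro h
    rcases const_or_strict t with h1 | ⟨h1, -⟩
    · exact h1
    · have := h1 1 (le_refl 1)
      exact absurd h this.ne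
  · intro h; exact h 1 2 (le_refl 1) (by norm_num)

theorem le_ev_of_not_const (t : Tm) (h : t.ev 1 ≠ t.ev 2) (N : ℕ) (hN : 1 ≤ N) : N ≤ t.ev N := by
  rcases const_or_strict t with h1 | ⟨-, h1⟩
  · exact absurd ((const_iff t).2 h1) h
  · exact h1 N hN

end Tm

/-- Decoding. -/
def dec : ℕ → Tm
  | 0 => Tm.X
  | k + 1 =>
    have h1 : k / 4 < k + 1 := Nat.lt_succ_of_le (Nat.div_le_self k 4)
    have h2 : (k / 4).unpair.1 < k + 1 := lt_of_le_of_lt (Nat.unpair_left_le _) h1
    have h3 : (k / 4).unpair.2 < k + 1 := lt_of_le_of_lt (Nat.unpair_right_le _) h1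
    if k % 4 = 0 then Tm.C (k / 4)
    else if k % 4 = 1 then Tm.Add (dec (k / 4).unpair.1) (dec (k / 4).unpair.2)
    else if k % 4 = 2 then Tm.Mul (dec (k / 4).unpair.1) (dec (k / 4).unpair.2)
    else Tm.Pow (dec (k / 4).unpair.1) (dec (k / 4).unpair.2)

theorem dec_X : dec 0 = Tm.X := by rw [dec]

theorem dec_C (n : ℕ) : dec (4 * n + 1) = Tm.C n := by
  rw [dec]
  have h1 : 4 * n % 4 = 0 := by omega
  have h2 : 4 * n / 4 = n := by omega
  simp only [h1, h2, if_true]

theorem dec_Add (a b : ℕ) : dec (4 * Nat.pair a b + 2) = Tm.Add (dec a) (dec b) := by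
  have e : 4 * Nat.pair a b + 2 = (4 * Nat.pair a b + 1) + 1 := rfl
  rw [e, dec]
  have h1 : (4 * Nat.pair a b + 1) % 4 = 1 := by omega
  have h2 : (4 * Nat.pair a b + 1) / 4 = Nat.pair a b := by omega
  simp [h1, h2]

theorem dec_Mul (a b : ℕ) : dec (4 * Nat.pair a b + 3) = Tm.Mul (dec a) (dec b) := by
  have e : 4 * Nat.pair a b + 3 = (4 * Nat.pair a b + 2) + 1 := rfl
  rw [e, dec]
  have h1 : (4 * Nat.pair a b + 2) % 4 = 2 := by omega
  have h2 : (4 * Nat.pair a b + 2) / 4 = Nat.pair a b := by omega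
  simp [h1, h2]

theorem dec_Pow (a b : ℕ) : dec (4 * Nat.pair a b + 4) = Tm.Pow (dec a) (dec b) := by
  have e : 4 * Nat.pair a b + 4 = (4 * Nat.pair a b + 3) + 1 := rfl
  rw [e, dec]
  have h1 : (4 * Nat.pair a b + 3) % 4 = 3 := by omega
  have h2 : (4 * Nat.pair a b + 3) / 4 = Nat.pair a b := by omega
  simp [h1, h2]

theorem size_dec (n : ℕ) : (dec n).size ≤ n + 1 := by
  induction n using Nat.strong_induction_on with
  | _ n ih =>
    rcases n with _ | k
    · rw [dec]; simp [Tm.size]
    · have h1 : k / 4 < k + 1 := Nat.lt_succ_of_le (Nat.div_le_self k 4)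
      have h2 : (k / 4).unpair.1 < k + 1 := lt_of_le_of_lt (Nat.unpair_left_le _) h1
      have h3 : (k / 4).unpair.2 < k + 1 := lt_of_le_of_lt (Nat.unpair_right_le _) h1
      have i1 := ih _ h1
      have i2 := ih _ h2
      have i3 := ih _ h3
      have h4 := Nat.unpair_left_le (k / 4)
      have h5 := Nat.unpair_right_le (k / 4)
      have h6 : 4 * (k / 4) ≤ k := Nat.mul_div_le k 4
      rw [dec]
      split_ifs with c1 c2 c3
      · simp [Tm.size]
      · simp only [Tm.size]; omega
      · simp only [Tm.size]; omega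
      · simp only [Tm.size]; omega

/-- Evaluation of codes. -/
def evn (N n : ℕ) : ℕ := (dec n).ev N

theorem evn_X (N : ℕ) : evn N 0 = N := by rw [evn, dec_X]; rfl

theorem evn_C (N n : ℕ) : evn N (4 * n + 1) = n + 1 := by rw [evn, dec_C]; rfl

theorem evn_Add (N a b : ℕ) : evn N (4 * Nat.pair a b + 2) = evn N a + evn N b := by
  rw [evn, dec_Add]; rfl

theorem evn_Mul (N a b : ℕ) : evn N (4 * Nat.pair a b + 3) = evn N a * evn N b := by
  rw [evn, dec_Mul]; rfl

theorem evn_Pow (N a b : ℕ) : evn N (4 * Nat.pair a b + 4) = evn N a ^ evn N b := by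
  rw [evn, dec_Pow]; rfl

theorem evn_pos (N n : ℕ) (hN : 1 ≤ N) : 1 ≤ evn N n := Tm.ev_pos _ _ hN

open Primrec in
theorem primrec_evn : Primrec₂ evn := by
  classical
  let g : ℕ → List ℕ → Option ℕ := fun N l =>
    if l.length = 0 then some N
    else if (l.length - 1) % 4 = 0 then some ((l.length - 1) / 4 + 1)
    else if (l.length - 1) % 4 = 1 then
      some (l.getD ((l.length - 1) / 4).unpair.1 0 + l.getD ((l.length - 1) / 4).unpair.2 0)
    else if (l.length - 1) % 4 = 2 then
      some (l.getD ((l.length - 1) / 4).unpair.1 0 * l.getD ((l.length - 1) / 4).unpair.2 0)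
    else
      some (l.getD ((l.length - 1) / 4).unpair.1 0 ^ l.getD ((l.length - 1) / 4).unpair.2 0)
  have hlen : Primrec (fun p : ℕ × List ℕ => p.2.length) := list_length.comp snd
  have hk : Primrec (fun p : ℕ × List ℕ => p.2.length - 1) := nat_sub.comp hlen (const 1)
  have hm : Primrec (fun p : ℕ × List ℕ => (p.2.length - 1) % 4) := nat_mod.comp hk (const 4)
  have hq : Primrec (fun p : ℕ × List ℕ => (p.2.length - 1) / 4) := nat_div.comp hk (const 4)
  have hu : Primrec (fun p : ℕ × List ℕ => ((p.2.length - 1) / 4).unpair) := unpair.comp hq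
  have hu1 : Primrec (fun p : ℕ × List ℕ => ((p.2.length - 1) / 4).unpair.1) := fst.comp hu
  have hu2 : Primrec (fun p : ℕ × List ℕ => ((p.2.length - 1) / 4).unpair.2) := snd.comp hu
  have hg1 : Primrec (fun p : ℕ × List ℕ => p.2.getD ((p.2.length - 1) / 4).unpair.1 0) :=
    (list_getD 0).comp snd hu1
  have hg2 : Primrec (fun p : ℕ × List ℕ => p.2.getD ((p.2.length - 1) / 4).unpair.2 0) :=
    (list_getD 0).comp snd hu2
  have hpow : Primrec₂ (fun a b : ℕ => a ^ b) := Primrec₂.unpaired'.1 Nat.Primrec.pow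
  have hg : Primrec₂ g := by
    refine ite (Primrec.eq.comp hlen (const 0)) (option_some.comp fst) ?_
    refine ite (Primrec.eq.comp hm (const 0)) (option_some.comp (succ.comp hq)) ?_
    refine ite (Primrec.eq.comp hm (const 1)) (option_some.comp (nat_add.comp hg1 hg2)) ?_
    refine ite (Primrec.eq.comp hm (const 2)) (option_some.comp (nat_mul.comp hg1 hg2)) ?_
    exact option_some.comp (hpow.comp hg1 hg2)
  refine nat_strong_rec evn hg ?_
  intro N n
  have hL : ((List.range n).map (evn N)).length = n := by simp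
  have hget : ∀ i, i < n → ((List.range n).map (evn N)).getD i 0 = evn N i := by
    intro i hi
    rw [List.getD_eq_getElem _ _ (by rw [hL]; exact hi)]
    simp
  rcases n with _ | k
  · simp only [g, hL, if_true]
    unfold evn
    rw [dec]
    rfl
  · have h1 : k / 4 < k + 1 := Nat.lt_succ_of_le (Nat.div_le_self k 4)
    have h2 : (k / 4).unpair.1 < k + 1 := lt_of_le_of_lt (Nat.unpair_left_le _) h1
    have h3 : (k / 4).unpair.2 < k + 1 := lt_of_le_of_lt (Nat.unpair_right_le _) h1
    have e1 : (k + 1 = 0) = False := by simp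
    have e2 : k + 1 - 1 = k := rfl
    simp only [g, hL, e1, e2, if_false]
    rw [hget _ h2, hget _ h3]
    unfold evn
    rw [dec]
    split_ifs <;> rfl

end Pool.Agent.P6adfe4
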