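import Mathlib
import Pool.Agent.Lib.P6adfe4.Fam
import Pool.Agent.Lib.P6adfe4.Terms

set_option autoImplicit false
set_option linter.style.haveILetI false

namespace Pool.Agent.P6adfe4

open Set Finset

/-- The growth of levels in one step. -/
def sg (C : ℕ) : ℕ := 3 * C + 2 + 2 ^ (C + 1)

theorem sg_eq (C : ℕ) : sg C = 3 * C + 2 + 2 ^ (C + 1) := rfl

theorem lin_le_sg (C : ℕ) : 3 * C + 2 ≤ sg C := by rw [sg_eq]; exact Nat.le_add_right _ _

theorem le_sg (C : ℕ) : C ≤ sg C := le_trans (by omega) (lin_le_sg C)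

theorem sg_mono : Monotone sg := by
  intro C D h
  have := Nat.pow_le_pow_right (n := 2) (by norm_num) (Nat.succ_le_succ h)
  unfold sg
  simp only [Nat.succ_eq_add_one] at this
  omega

/-- The growth of the zero bound in one step. -/
def Th (B : ℕ → ℕ) (C : ℕ) : ℕ := 2 ^ sg C * (B (sg C) + 1)

theorem Th_mono : Monotone Th := by
  intro B B' h C
  exact Nat.mul_le_mul_left _ (Nat.succ_le_succ (h _))

theorem Th_monotone {B : ℕ → ℕ} (hB : Monotone B) : Monotone (Th B) := by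
  intro C D h
  exact Nat.mul_le_mul (Nat.pow_le_pow_right (by norm_num) (sg_mono h))
    (Nat.succ_le_succ (hB (sg_mono h)))

theorem bound_le_Th {B : ℕ → ℕ} (hB : Monotone B) {C D : ℕ} (h : D ≤ sg C) : B D ≤ Th B C := by
  unfold Th
  calc B D ≤ B (sg C) := hB h
    _ ≤ 1 * (B (sg C) + 1) := by omega
    _ ≤ 2 ^ sg C * (B (sg C) + 1) := Nat.mul_le_mul_right _ Nat.one_le_two_pow

theorem iter_monotone {B : ℕ → ℕ} (hB : Monotone B) (n : ℕ) : Monotone (Th^[n] B) := by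
  induction n with
  | zero => exact hB
  | succ n ih => rw [Function.iterate_succ_apply']; exact Th_monotone ih

theorem iter_le_iter {B : ℕ → ℕ} (hB : Monotone B) {n m : ℕ} (h : n ≤ m) :
    Th^[n] B ≤ Th^[m] B := by
  induction m, h using Nat.le_induction with
  | base => exact le_refl _
  | succ m _ ih =>
    refine ih.trans ?_
    rw [Function.iterate_succ_apply']
    intro C
    exact bound_le_Th (iter_monotone hB m) (le_sg C)

/-- `G` extends `F` in at most `n` steps. -/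
def Le (F G : Fam) (n : ℕ) : Prop := (∀ C, F.R C ≤ G.R C) ∧ G.B ≤ Th^[n] F.B

theorem Le.rfl {F : Fam} : Le F F 0 := ⟨fun _ => le_refl _, fun _ => le_refl _⟩

theorem Le.trans {F G H : Fam} {n m : ℕ} (h1 : Le F G n) (h2 : Le G H m) : Le F H (n + m) := by
  refine ⟨fun C => (h1.1 C).trans (h2.1 C), ?_⟩
  rw [add_comm, Function.iterate_add_apply]
  exact h2.2.trans (Th_mono.iterate m h1.2)

theorem Le.weaken {F G : Fam} {n m : ℕ} (h1 : Le F G n) (h : n ≤ m) : Le F G m :=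
  ⟨h1.1, h1.2.trans (iter_le_iter F.Bmono h)⟩

theorem le_shift (F : Fam) : Le F F.shift 1 := by
  refine ⟨fun C => F.mono1 C, fun C => ?_⟩
  exact bound_le_Th F.Bmono (le_trans (by omega) (lin_le_sg C))

theorem le_recip (F : Fam) (w : ℝ → ℝ) (hw : w ∈ F.R 0) (hw' : deriv w ∈ F.R 0)
    (hne : ∀ x, w x ≠ 0) : Le F (F.recip w hw hw' hne) 1 := by
  refine ⟨fun C f hf => ?_, fun C => ?_⟩
  · exact ⟨F.an C f hf, F.mono (by omega) (F.mul C _ _ (F.pow_mem hw C _ (le_refl _)) hf)⟩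
  · exact bound_le_Th F.Bmono (le_trans (by omega) (lin_le_sg C))

theorem inv_mem_recip (F : Fam) (w : ℝ → ℝ) (hw : w ∈ F.R 0) (hw' : deriv w ∈ F.R 0)
    (hne : ∀ x, w x ≠ 0) : (fun x => (w x)⁻¹) ∈ (F.recip w hw hw' hne).R 0 := by
  refine ⟨?_, ?_⟩
  · exact (F.an 0 w hw).inv (fun x _ => hne x)
  · have : w ^ 2 ^ 0 * (fun x => (w x)⁻¹) = 1 := by
      funext x
      simp [hne x]
    rw [this]
    exact F.mono (by omega) F.one

theorem le_ext (F : Fam) (y q r : ℝ → ℝ) (hy : AnalyticOnNhd ℝ y univ) (hq : q ∈ F.R 0)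
    (hr : r ∈ F.R 0) (hyd : ∀ x, HasDerivAt y (q x * y x + r x) x)
    (hz : ∀ d C f, f ∈ Fam.Ext (F.R C) y d → f = 0 ∨ ZB f (Fam.Zf F.B d C)) :
    Le F (F.ext y q r hy hq hr hyd hz) 1 := by
  refine ⟨fun C f hf => Fam.base_mem hf, fun C => ?_⟩
  show 2 ^ (C + 2) * (F.B (C + 2 ^ (C + 1)) + 1) ≤ 2 ^ sg C * (F.B (sg C) + 1)
  apply Nat.mul_le_mul
  · exact Nat.pow_le_pow_right (by norm_num) (le_trans (by omega) (lin_le_sg C))
  · refine Nat.succ_le_succ (F.Bmono ?_)
    rw [sg_eq]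
    exact Nat.add_le_add (by omega) (le_refl _)

theorem mem_ext (F : Fam) (y q r : ℝ → ℝ) (hy : AnalyticOnNhd ℝ y univ) (hq : q ∈ F.R 0)
    (hr : r ∈ F.R 0) (hyd : ∀ x, HasDerivAt y (q x * y x + r x) x)
    (hz : ∀ d C f, f ∈ Fam.Ext (F.R C) y d → f = 0 ∨ ZB f (Fam.Zf F.B d C)) :
    y ∈ (F.ext y q r hy hq hr hyd hz).R 0 := by
  have := Fam.monomial_mem (S := F.R 0) (y := y) (d := 2 ^ 0) (k := 1) F.one (by norm_num)
  rwa [one_mul, pow_one] at this

/-- Good functions. -/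
structure Good (F : Fam) (t : ℝ → ℝ) : Prop where
  pos : ∀ x, 0 < t x
  mem : t ∈ F.R 0
  log : (fun x => Real.log (t x)) ∈ F.R 0
  inv : (fun x => (t x)⁻¹) ∈ F.R 0

theorem Good.mono {F G : Fam} {n : ℕ} {t : ℝ → ℝ} (h : Good F t) (hFG : Le F G n) : Good G t :=
  ⟨h.pos, hFG.1 0 h.mem, hFG.1 0 h.log, hFG.1 0 h.inv⟩

theorem const_mem (F : Fam) (c : ℝ) : (fun _ => c) ∈ F.R 0 := by
  have h := (F.R 0).smul_mem c F.one
  have e : c • (1 : ℝ → ℝ) = fun _ => c := by funext x; simp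
  rwa [e] at h

theorem good_const (F : Fam) {c : ℝ} (hc : 0 < c) : Good F (fun _ => c) :=
  ⟨fun _ => hc, const_mem F c, const_mem F _, const_mem F _⟩

theorem good_mul {F : Fam} {a b : ℝ → ℝ} (ha : Good F a) (hb : Good F b) :
    ∃ G, Le F G 1 ∧ Good G (fun x => a x * b x) := by
  refine ⟨F.shift, le_shift F, fun x => mul_pos (ha.pos x) (hb.pos x),
    F.mul 0 _ _ ha.mem hb.mem, ?_, ?_⟩
  · have e : (fun x => Real.log (a x * b x)) = (fun x => Real.log (a x)) + fun x => Real.log (b x) := by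
      funext x
      rw [Real.log_mul (ha.pos x).ne' (hb.pos x).ne', Pi.add_apply]
    rw [e]
    exact F.mono1 0 (Submodule.add_mem _ ha.log hb.log)
  · have e : (fun x => (a x * b x)⁻¹) = (fun x => (a x)⁻¹) * fun x => (b x)⁻¹ := by
      funext x
      rw [mul_inv, Pi.mul_apply]
    rw [e]
    exact F.mul 0 _ _ ha.inv hb.inv

theorem good_add {F : Fam} {a b : ℝ → ℝ} (ha : Good F a) (hb : Good F b) :
    ∃ G, Le F G 4 ∧ Good G (fun x => a x + b x) := by
  set w : ℝ → ℝ := a + b with hw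
  have hpos : ∀ x, 0 < w x := fun x => add_pos (ha.pos x) (hb.pos x)
  have hne : ∀ x, w x ≠ 0 := fun x => (hpos x).ne'
  have hwm : w ∈ F.R 0 := Submodule.add_mem _ ha.mem hb.mem
  have hw1 : w ∈ F.shift.R 0 := F.mono1 0 hwm
  have hw1' : deriv w ∈ F.shift.R 0 := F.der 0 _ hwm
  set G2 := F.shift.recip w hw1 hw1' hne with hG2
  have l1 : Le F F.shift 1 := le_shift F
  have l2 : Le F.shift G2 1 := le_recip _ _ _ _ _
  have hinv : (fun x => (w x)⁻¹) ∈ G2.R 0 := inv_mem_recip _ _ _ _ _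
  have hw2 : w ∈ G2.R 0 := l2.1 0 hw1
  have hw2' : deriv w ∈ G2.R 0 := l2.1 0 hw1'
  have l3 : Le G2 G2.shift 1 := le_shift G2
  have hr : deriv w * (fun x => (w x)⁻¹) ∈ G2.shift.R 0 := G2.mul 0 _ _ hw2' hinv
  have hyan : AnalyticOnNhd ℝ (fun x => Real.log (w x)) univ :=
    fun x _ => (F.an 0 w hwm x trivial).log (hpos x)
  have hyd : ∀ x, HasDerivAt (fun x => Real.log (w x)) ((deriv w * (fun x => (w x)⁻¹)) x) x := by
    intro x
    have := ((F.diff hwm) x).hasDerivAt.log (hne x)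
    rwa [div_eq_mul_inv] at this
  have hyd' : ∀ x, HasDerivAt (fun x => Real.log (w x))
      ((0 : ℝ → ℝ) x * Real.log (w x) + (deriv w * (fun x => (w x)⁻¹)) x) x := by
    intro x; simpa using hyd x
  set G4 := G2.shift.ext (fun x => Real.log (w x)) 0 (deriv w * (fun x => (w x)⁻¹)) hyan
    (Submodule.zero_mem _) hr hyd' (G2.shift.zb_log hyan hr hyd) with hG4
  have l4 : Le G2.shift G4 1 := le_ext _ _ _ _ _ _ _ _ _
  have hlog : (fun x => Real.log (w x)) ∈ G4.R 0 := mem_ext _ _ _ _ _ _ _ _ _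
  exact ⟨G4, ((l1.trans l2).trans l3).trans l4, hpos, l4.1 0 (l3.1 0 hw2), hlog,
    l4.1 0 (l3.1 0 hinv)⟩

theorem good_pow {F : Fam} {a b : ℝ → ℝ} (ha : Good F a) (hb : Good F b) :
    ∃ G, Le F G 5 ∧ Good G (fun x => Real.exp (Real.log (a x) * b x)) := by
  set g : ℝ → ℝ := (fun x => Real.log (a x)) * b with hg
  have hg1 : g ∈ F.shift.R 0 := F.mul 0 _ _ ha.log hb.mem
  have l1 : Le F F.shift 1 := le_shift F
  have l2 : Le F.shift F.shift.shift 1 := le_shift _
  have hg2 : g ∈ F.shift.shift.R 0 := l2.1 0 hg1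
  have hg2' : deriv g ∈ F.shift.shift.R 0 := F.shift.der 0 _ hg1
  set y : ℝ → ℝ := fun x => Real.exp (Real.log (a x) * b x) with hy
  have hyg : y = fun x => Real.exp (g x) := rfl
  have hyan : AnalyticOnNhd ℝ y univ := fun x _ =>
    (F.shift.an 0 g hg1 x trivial).rexp'
  have hypos : ∀ x, 0 < y x := fun x => Real.exp_pos _
  have hyne : ∀ x, y x ≠ 0 := fun x => (hypos x).ne'
  have hyd : ∀ x, HasDerivAt y (deriv g x * y x) x := by
    intro x
    have := ((F.shift.diff hg1) x).hasDerivAt.exp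
    rwa [mul_comm] at this
  have hyd' : ∀ x, HasDerivAt y (deriv g x * y x + (0 : ℝ → ℝ) x) x := by
    intro x; simpa using hyd x
  set G3 := F.shift.shift.ext y (deriv g) 0 hyan hg2' (Submodule.zero_mem _) hyd'
    (F.shift.shift.zb_exp hyan hg2' hyd hyne) with hG3
  have l3 : Le F.shift.shift G3 1 := le_ext _ _ _ _ _ _ _ _ _
  have hy3 : y ∈ G3.R 0 := mem_ext _ _ _ _ _ _ _ _ _
  have l4 : Le G3 G3.shift 1 := le_shift _
  have hy4 : y ∈ G3.shift.R 0 := l4.1 0 hy3
  have hy4' : deriv y ∈ G3.shift.R 0 := G3.der 0 _ hy3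
  set G5 := G3.shift.recip y hy4 hy4' hyne with hG5
  have l5 : Le G3.shift G5 1 := le_recip _ _ _ _ _
  have hinv : (fun x => (y x)⁻¹) ∈ G5.R 0 := inv_mem_recip _ _ _ _ _
  refine ⟨G5, (((l1.trans l2).trans l3).trans l4).trans l5, hypos, l5.1 0 hy4, ?_, hinv⟩
  have e : (fun x => Real.log (y x)) = g := by
    funext x
    rw [hyg, Real.log_exp]
  rw [e]
  exact l5.1 0 (l4.1 0 (l3.1 0 hg2))

/-- Polynomial functions of degree at most `d`. -/
def polyS (d : ℕ) : Submodule ℝ (ℝ → ℝ) where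
  carrier := {f | ∃ P : Polynomial ℝ, P.natDegree ≤ d ∧ f = fun x => P.eval x}
  add_mem' := by
    rintro f g ⟨P, hP, rfl⟩ ⟨Q, hQ, rfl⟩
    refine ⟨P + Q, Polynomial.natDegree_add_le_of_degree_le hP hQ, ?_⟩
    funext x
    simp
  zero_mem' := ⟨0, by simp, by funext x; simp⟩
  smul_mem' := by
    rintro c f ⟨P, hP, rfl⟩
    refine ⟨c • P, (Polynomial.natDegree_smul_le c P).trans hP, ?_⟩
    funext x
    simp

/-- The base family. -/
def F0 : Fam where
  R C := polyS (2 ^ C)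
  B C := 2 ^ C
  mono1 C := by
    rintro f ⟨P, hP, rfl⟩
    exact ⟨P, hP.trans (Nat.pow_le_pow_right (by norm_num) (by omega)), rfl⟩
  one := ⟨1, by simp, by funext x; simp⟩
  an C f hf := by
    obtain ⟨P, hP, rfl⟩ := hf
    intro x _
    exact (AnalyticOnNhd.eval_polynomial P) x trivial
  mul C f g hf hg := by
    obtain ⟨P, hP, rfl⟩ := hf
    obtain ⟨Q, hQ, rfl⟩ := hg
    refine ⟨P * Q, ?_, by funext x; simp⟩
    refine Polynomial.natDegree_mul_le.trans ?_
    rw [pow_succ]; omega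
  der C f hf := by
    obtain ⟨P, hP, rfl⟩ := hf
    refine ⟨Polynomial.derivative P, ?_, by funext x; simp⟩
    refine (Polynomial.natDegree_derivative_le P).trans ?_
    rw [pow_succ]; omega
  zb C f hf := by
    obtain ⟨P, hP, rfl⟩ := hf
    by_cases h0 : P = 0
    · left; rw [h0]; funext x; simp
    · right
      intro Z hZ
      have h1 : Z.val ≤ P.roots := by
        rw [Multiset.le_iff_subset Z.nodup]
        intro x hx
        rw [Polynomial.mem_roots h0]
        exact hZ x hx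
      calc Z.card ≤ Multiset.card P.roots := Multiset.card_le_card h1
        _ ≤ P.natDegree := Polynomial.card_roots' P
        _ ≤ 2 ^ C := hP
  Bmono := fun C D h => Nat.pow_le_pow_right (by norm_num) h

theorem good_exp : ∃ G, Le F0 G 2 ∧ Good G Real.exp := by
  have hid : (fun x : ℝ => x) ∈ F0.R 0 := ⟨Polynomial.X, by simp, by funext x; simp⟩
  have hyd : ∀ x, HasDerivAt Real.exp ((1 : ℝ → ℝ) x * Real.exp x) x := by
    intro x; simpa using Real.hasDerivAt_exp x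
  have hyd' : ∀ x, HasDerivAt Real.exp ((1 : ℝ → ℝ) x * Real.exp x + (0 : ℝ → ℝ) x) x := by
    intro x; simpa using Real.hasDerivAt_exp x
  have hyan : AnalyticOnNhd ℝ Real.exp univ := analyticOnNhd_rexp
  set G1 := F0.ext Real.exp 1 0 hyan F0.one (Submodule.zero_mem _) hyd'
    (F0.zb_exp hyan F0.one hyd (fun x => Real.exp_ne_zero x)) with hG1
  have l1 : Le F0 G1 1 := le_ext _ _ _ _ _ _ _ _ _
  have hy1 : Real.exp ∈ G1.R 0 := mem_ext _ _ _ _ _ _ _ _ _
  have hy1' : deriv Real.exp ∈ G1.R 0 := by rw [Real.deriv_exp]; exact hy1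
  have l2 : Le G1 (G1.recip Real.exp hy1 hy1' (fun x => Real.exp_ne_zero x)) 1 :=
    le_recip _ _ _ _ _
  refine ⟨_, l1.trans l2, Real.exp_pos, l2.1 0 hy1, ?_, inv_mem_recip _ _ _ _ _⟩
  have e : (fun x => Real.log (Real.exp x)) = fun x => x := by funext x; rw [Real.log_exp]
  rw [e]
  exact l2.1 0 (l1.1 0 hid)

/-- Real evaluation of terms (at `exp u`). -/
noncomputable def rev : Tm → ℝ → ℝ
  | .X, u => Real.exp u
  | .C n, _ => (n : ℝ) + 1
  | .Add a b, u => rev a u + rev b u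
  | .Mul a b, u => rev a u * rev b u
  | .Pow a b, u => Real.exp (Real.log (rev a u) * rev b u)

theorem good_rev (t : Tm) : ∀ F : Fam, Good F Real.exp →
    ∃ G, Le F G (5 * t.size) ∧ Good G (rev t) := by
  induction t with
  | X =>
    intro F hF
    exact ⟨F, Le.rfl.weaken (Nat.zero_le _), hF⟩
  | C n =>
    intro F hF
    exact ⟨F, Le.rfl.weaken (Nat.zero_le _), good_const F (Nat.cast_add_one_pos n)⟩
  | Add a b iha ihb =>
    intro F hF
    obtain ⟨G1, l1, h1⟩ := iha F hF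
    obtain ⟨G2, l2, h2⟩ := ihb G1 (hF.mono l1)
    obtain ⟨G3, l3, h3⟩ := good_add (h1.mono l2) h2
    exact ⟨G3, ((l1.trans l2).trans l3).weaken (by simp only [Tm.size]; omega), h3⟩
  | Mul a b iha ihb =>
    intro F hF
    obtain ⟨G1, l1, h1⟩ := iha F hF
    obtain ⟨G2, l2, h2⟩ := ihb G1 (hF.mono l1)
    obtain ⟨G3, l3, h3⟩ := good_mul (h1.mono l2) h2
    exact ⟨G3, ((l1.trans l2).trans l3).weaken (by simp only [Tm.size]; omega), h3⟩
  | Pow a b iha ihb =>
    intro F hF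
    obtain ⟨G1, l1, h1⟩ := iha F hF
    obtain ⟨G2, l2, h2⟩ := ihb G1 (hF.mono l1)
    obtain ⟨G3, l3, h3⟩ := good_pow (h1.mono l2) h2
    exact ⟨G3, ((l1.trans l2).trans l3).weaken (by simp only [Tm.size]; omega), h3⟩

theorem rev_log (t : Tm) (N : ℕ) (hN : 1 ≤ N) : rev t (Real.log N) = (t.ev N : ℝ) := by
  have hN0 : (0 : ℝ) < N := by exact_mod_cast hN
  induction t with
  | X => simp [rev, Tm.ev, Real.exp_log hN0]
  | C n => simp [rev, Tm.ev]
  | Add a b iha ihb => simp [rev, Tm.ev, iha, ihb]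
  | Mul a b iha ihb => simp [rev, Tm.ev, iha, ihb]
  | Pow a b iha ihb =>
    have h1 : (0 : ℝ) < (a.ev N : ℝ) := by exact_mod_cast Tm.ev_pos a N hN
    simp only [rev, Tm.ev, iha, ihb]
    rw [mul_comm, Real.exp_nat_mul, Real.exp_log h1]
    push_cast
    rfl

theorem agree_bound (t s : Tm) : (∀ N, 1 ≤ N → t.ev N = s.ev N) ∨
    ∀ Z : Finset ℕ, (∀ N ∈ Z, 1 ≤ N ∧ t.ev N = s.ev N) →
      Z.card ≤ (Th^[2 + 5 * t.size + 5 * s.size] (fun C => 2 ^ C)) 0 := by
  obtain ⟨G0, l0, h0⟩ := good_exp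
  obtain ⟨G1, l1, h1⟩ := good_rev t G0 h0
  obtain ⟨G2, l2, h2⟩ := good_rev s G1 (h0.mono l1)
  have hL := (l0.trans l1).trans l2
  have hm : rev t - rev s ∈ G2.R 0 := Submodule.sub_mem _ (h1.mono l2).mem h2.mem
  rcases G2.zb 0 _ hm with h | h
  · left
    intro N hN
    have := congrFun h (Real.log N)
    simp only [Pi.sub_apply, Pi.zero_apply, rev_log _ N hN] at this
    exact_mod_cast sub_eq_zero.1 this
  · right
    intro Z hZ
    have hinj : Set.InjOn (fun N : ℕ => Real.log N) (Z : Set ℕ) := by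
      intro a ha b hb hab
      have ha1 : (0 : ℝ) < a := by exact_mod_cast (hZ a ha).1
      have hb1 : (0 : ℝ) < b := by exact_mod_cast (hZ b hb).1
      exact_mod_cast Real.log_injOn_pos ha1 hb1 hab
    have h3 := h (Z.image (fun N : ℕ => Real.log N)) (by
      intro x hx
      obtain ⟨N, hN, rfl⟩ := Finset.mem_image.1 hx
      obtain ⟨hN1, hN2⟩ := hZ N hN
      rw [Pi.sub_apply, rev_log _ N hN1, rev_log _ N hN1, hN2, sub_self])
    rw [Finset.card_image_of_injOn hinj] at h3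
    exact h3.trans (hL.2 0)

/-- Primitive recursive bound. -/
def vb (K : ℕ) : ℕ → ℕ
  | 0 => 2 ^ K
  | n + 1 => 2 ^ K * (vb K n + 1)

theorem le_iter_sg (n C : ℕ) : C ≤ sg^[n] C := by
  induction n with
  | zero => exact le_refl _
  | succ n ih => rw [Function.iterate_succ_apply']; exact ih.trans (le_sg _)

theorem Th_le_vb (n : ℕ) : ∀ C K, sg^[n] C ≤ K → (Th^[n] (fun C => 2 ^ C)) C ≤ vb K n := by
  induction n with
  | zero =>
    intro C K h
    exact Nat.pow_le_pow_right (by norm_num) h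
  | succ n ih =>
    intro C K h
    rw [Function.iterate_succ_apply] at h
    rw [Function.iterate_succ_apply', Th, vb]
    exact Nat.mul_le_mul (Nat.pow_le_pow_right (by norm_num) ((le_iter_sg n _).trans h))
      (Nat.succ_le_succ (ih _ _ h))

/-- The zero bound for codes. -/
def zn (n : ℕ) : ℕ := vb (sg^[n] 0) n

theorem agree_zn (p q n : ℕ) (hn : 5 * (p + q) + 12 ≤ n) : (∀ N, 1 ≤ N → evn N p = evn N q) ∨
    ∀ Z : Finset ℕ, (∀ N ∈ Z, 1 ≤ N ∧ evn N p = evn N q) → Z.card ≤ zn n := by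
  rcases agree_bound (dec p) (dec q) with h | h
  · left; exact h
  · right
    intro Z hZ
    refine (h Z hZ).trans ?_
    have h1 := size_dec p
    have h2 := size_dec q
    have hB : Monotone (fun C : ℕ => 2 ^ C) := fun C D h => Nat.pow_le_pow_right (by norm_num) h
    exact (iter_le_iter hB (by omega : 2 + 5 * (dec p).size + 5 * (dec q).size ≤ n) 0).trans
      (Th_le_vb n 0 _ (le_refl _))

open Primrec in
theorem primrec_zn : Primrec zn := by
  have hpow : Primrec₂ (fun a b : ℕ => a ^ b) := Primrec₂.unpaired'.1 Nat.Primrec.pow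
  have hsg : Primrec sg := by
    unfold sg
    exact nat_add.comp (nat_add.comp (nat_mul.comp (const 3) Primrec.id) (const 2))
      (hpow.comp (const 2) (succ.comp Primrec.id))
  have hk : Primrec (fun n : ℕ => sg^[n] 0) :=
    nat_iterate Primrec.id (const 0) (hsg.comp snd).to₂
  have hvb : Primrec₂ vb := by
    have h1 : Primrec₂ (fun (K : ℕ) (n : ℕ) =>
        (Nat.rec (motive := fun _ => ℕ) (2 ^ K) (fun _ a => 2 ^ K * (a + 1)) n : ℕ)) := by
      refine nat_rec (f := fun K : ℕ => 2 ^ K) (g := fun (K : ℕ) (p : ℕ × ℕ) => 2 ^ K * (p.2 + 1))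
        (hpow.comp (const 2) Primrec.id) ?_
      exact (nat_mul.comp (hpow.comp (const 2) fst) (succ.comp (snd.comp snd))).to₂
    refine h1.of_eq (fun K n => ?_)
    induction n with
    | zero => rfl
    | succ n ih => simp only [vb]; rw [← ih]
  exact hvb.comp hk Primrec.id

end Pool.Agent.P6adfe4
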