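import Mathlib
import Pool.Agent.Lib.P6adfe4.Zeros
import Pool.Agent.Lib.P6adfe4.Red

set_option autoImplicit false
set_option linter.style.haveILetI false

namespace Pool.Agent.P6adfe4

open Primrec

/-- Agreement of codes at the first few numbers. -/
def eqv (p q : ℕ) : Prop := ∀ N < zn (5 * (p + q) + 12) + 1, evn (N + 1) p = evn (N + 1) q

theorem eqv_iff (p q : ℕ) : eqv p q ↔ ∀ N, 1 ≤ N → evn N p = evn N q := by
  constructor
  · intro h
    rcases agree_zn p q _ (le_refl _) with h1 | h1
    · exact h1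
    · exfalso
      have h2 := h1 ((Finset.range (zn (5 * (p + q) + 12) + 1)).image (· + 1)) (by
        intro N hN
        obtain ⟨M, hM, rfl⟩ := Finset.mem_image.1 hN
        exact ⟨Nat.succ_le_succ (Nat.zero_le _), h M (Finset.mem_range.1 hM)⟩)
      rw [Finset.card_image_of_injective _ (add_left_injective 1), Finset.card_range] at h2
      omega
  · intro h N _
    exact h (N + 1) (Nat.succ_le_succ (Nat.zero_le _))

theorem primrec_eqv : PrimrecRel eqv := by
  have h : PrimrecPred fun b : ℕ × ℕ => ∀ x < zn (5 * (b.1 + b.2) + 12) + 1,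
      evn (x + 1) b.1 = evn (x + 1) b.2 := by
    refine primrec_forall_lt (β := ℕ × ℕ) (R := fun x b => evn (x + 1) b.1 = evn (x + 1) b.2)
      ?_ ?_
    · exact Primrec.eq.comp
        (primrec_evn.comp (succ.comp fst) (fst.comp snd))
        (primrec_evn.comp (succ.comp fst) (snd.comp snd))
    · exact succ.comp (primrec_zn.comp (nat_add.comp (nat_mul.comp (const 5)
        (nat_add.comp fst snd)) (const 12)))
  exact h

/-- Sum of all small values. -/
def Es (s : ℕ) : ℕ := ∑ p ∈ Finset.range (s + 1), ∑ N ∈ Finset.range (s + 1), evn N p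

theorem le_Es {s N p : ℕ} (hN : N ≤ s) (hp : p ≤ s) : evn N p ≤ Es s := by
  have h1 : evn N p ≤ ∑ N ∈ Finset.range (s + 1), evn N p :=
    Finset.single_le_sum (f := fun N => evn N p) (fun _ _ => Nat.zero_le _)
      (Finset.mem_range.2 (Nat.lt_succ_of_le hN))
  exact h1.trans (Finset.single_le_sum (f := fun p => ∑ N ∈ Finset.range (s + 1), evn N p)
    (fun _ _ => Nat.zero_le _) (Finset.mem_range.2 (Nat.lt_succ_of_le hp)))

theorem primrec_Es : Primrec Es := by
  have h1 : Primrec₂ fun (s p : ℕ) => ∑ N ∈ Finset.range (s + 1), evn N p := by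
    have : Primrec fun b : ℕ × ℕ => ∑ N ∈ Finset.range (b.1 + 1), evn N b.2 := by
      refine primrec_sum (β := ℕ × ℕ) (f := fun b N => evn N b.2) ?_ (succ.comp fst)
      exact (primrec_evn.comp snd (snd.comp fst)).to₂
    exact this.to₂
  exact primrec_sum h1 succ

/-- Genericity of `v` at level `s`. -/
def Gen (s v : ℕ) : Prop := ∀ p < s + 1, ∀ q < s + 1, evn v p ≠ evn v q ∨ eqv p q

theorem primrec_Gen : PrimrecRel Gen := by
  have h1 : PrimrecPred fun b : (ℕ × ℕ) × ℕ => ∀ q < b.1.1 + 1,
      evn b.1.2 b.2 ≠ evn b.1.2 q ∨ eqv b.2 q := by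
    refine primrec_forall_lt (β := (ℕ × ℕ) × ℕ)
      (R := fun q b => evn b.1.2 b.2 ≠ evn b.1.2 q ∨ eqv b.2 q) ?_ (succ.comp (fst.comp fst))
    refine PrimrecPred.or (PrimrecPred.not (Primrec.eq.comp ?_ ?_)) ?_
    · exact primrec_evn.comp (snd.comp (fst.comp snd)) (snd.comp snd)
    · exact primrec_evn.comp (snd.comp (fst.comp snd)) fst
    · exact primrec_eqv.comp (snd.comp snd) fst
  have h2 : PrimrecPred fun b : ℕ × ℕ => ∀ p < b.1 + 1, ∀ q < b.1 + 1,
      evn b.2 p ≠ evn b.2 q ∨ eqv p q := by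
    refine primrec_forall_lt (β := ℕ × ℕ)
      (R := fun p b => ∀ q < b.1 + 1, evn b.2 p ≠ evn b.2 q ∨ eqv p q) ?_ (succ.comp fst)
    exact PrimrecPred.comp h1 (pair snd fst)
  exact h2

open Classical in
/-- A generic number at level `s`. -/
noncomputable def nu (s : ℕ) : ℕ :=
  Nat.findGreatest (fun v => Es s < v ∧ s + 2 < v ∧ Gen s v)
    (Es s + s + 3 + (s + 1) * (s + 1) * zn (10 * s + 12))

theorem primrec_nu : Primrec nu := by
  classical
  refine nat_findGreatest ?_ ?_
  · exact nat_add.comp (nat_add.comp (nat_add.comp primrec_Es Primrec.id) (const 3))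
      (nat_mul.comp (nat_mul.comp succ succ)
        (primrec_zn.comp (nat_add.comp (nat_mul.comp (const 10) Primrec.id) (const 12))))
  · refine PrimrecPred.and (nat_lt.comp (primrec_Es.comp fst) snd) (PrimrecPred.and ?_ primrec_Gen)
    exact nat_lt.comp (nat_add.comp fst (const 2)) snd

theorem nu_spec (s : ℕ) : Es s < nu s ∧ s + 2 < nu s ∧ Gen s (nu s) := by
  classical
  set Z := zn (10 * s + 12) with hZ
  set A := Es s + s + 3 with hA
  obtain ⟨v, hv1, hv2, hv3⟩ : ∃ v, A ≤ v ∧ v ≤ A + (s + 1) * (s + 1) * Z ∧ Gen s v := by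
    by_contra hcon
    push Not at hcon
    set I := Finset.Icc A (A + (s + 1) * (s + 1) * Z) with hI
    set P := ((Finset.range (s + 1)) ×ˢ (Finset.range (s + 1))) with hP
    set bad : ℕ × ℕ → Finset ℕ :=
      fun x => if eqv x.1 x.2 then ∅ else I.filter (fun v => evn v x.1 = evn v x.2) with hbad
    have h1 : I ⊆ P.biUnion bad := by
      intro v hv
      rw [hI, Finset.mem_Icc] at hv
      have h2 := hcon v hv.1 hv.2
      unfold Gen at h2
      push Not at h2
      obtain ⟨p, hp, q, hq, h3, h4⟩ := h2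
      rw [Finset.mem_biUnion]
      refine ⟨(p, q), Finset.mem_product.2 ⟨Finset.mem_range.2 hp, Finset.mem_range.2 hq⟩, ?_⟩
      simp only [hbad, if_neg h4, Finset.mem_filter, hI, Finset.mem_Icc]
      exact ⟨hv, h3⟩
    have h2 : (P.biUnion bad).card ≤ P.card * Z := by
      apply Finset.card_biUnion_le_card_mul
      rintro ⟨p, q⟩ hpq
      rw [hP, Finset.mem_product, Finset.mem_range, Finset.mem_range] at hpq
      simp only [hbad]
      split_ifs with h
      · simp
      · rcases agree_zn p q (10 * s + 12) (by omega) with h3 | h3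
        · exact absurd ((eqv_iff p q).2 h3) h
        · apply h3
          intro N hN
          rw [Finset.mem_filter, hI, Finset.mem_Icc] at hN
          exact ⟨by omega, hN.2⟩
    have h3 : I.card = (s + 1) * (s + 1) * Z + 1 := by
      rw [hI, Nat.card_Icc]; omega
    have h4 : P.card = (s + 1) * (s + 1) := by
      rw [hP, Finset.card_product, Finset.card_range]
    have h5 := (Finset.card_le_card h1).trans h2
    rw [h3, h4] at h5
    omega
  exact Nat.findGreatest_spec (P := fun v => Es s < v ∧ s + 2 < v ∧ Gen s v) hv2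
    ⟨by omega, by omega, hv3⟩

theorem exists_ackCode : ∃ c : Nat.Partrec.Code, ∀ x, c.eval x = Part.some (ack x x) := by
  have h : Computable (fun x : ℕ => ack x x) := computable₂_ack.comp Computable.id Computable.id
  have h2 : Nat.Partrec (fun x : ℕ => Part.some (ack x x)) := Partrec.nat_iff.1 h.partrec
  obtain ⟨c, hc⟩ := Nat.Partrec.Code.exists_code.1 h2
  exact ⟨c, fun x => congrFun hc x⟩

/-- A code of the diagonal Ackermann function. -/
noncomputable def ackC : Nat.Partrec.Code := exists_ackCode.choose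

theorem ackC_spec (x : ℕ) : ackC.eval x = Part.some (ack x x) := exists_ackCode.choose_spec x

/-- The computations up to `x` converge within `t` steps. -/
def uu (x t : ℕ) : Prop :=
  x ≤ t ∧ ∀ y < x + 1, (Nat.Partrec.Code.evaln t ackC y).isSome = true

theorem primrec_uu : PrimrecRel uu := by
  refine PrimrecPred.and (nat_le.comp fst snd) ?_
  refine primrec_forall_lt (β := ℕ × ℕ)
    (R := fun y b => (Nat.Partrec.Code.evaln b.2 ackC y).isSome = true) ?_ (succ.comp fst)
  have h1 : Primrec fun a : ℕ × ℕ × ℕ => Nat.Partrec.Code.evaln a.2.2 ackC a.1 :=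
    Nat.Partrec.Code.primrec_evaln.comp (pair (pair (snd.comp snd) (const ackC)) fst)
  exact Primrec.eq.comp (option_isSome.comp h1) (const true)

theorem uu_mono {x t t' : ℕ} (h : uu x t) (ht : t ≤ t') : uu x t' := by
  refine ⟨h.1.trans ht, fun y hy => ?_⟩
  have h1 := h.2 y hy
  rw [Option.isSome_iff_exists] at h1 ⊢
  obtain ⟨a, ha⟩ := h1
  exact ⟨a, Nat.Partrec.Code.evaln_mono ht ha⟩

theorem uu_anti {x x' t : ℕ} (h : uu x t) (hx : x' ≤ x) : uu x' t :=
  ⟨hx.trans h.1, fun y hy => h.2 y (by omega)⟩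

theorem uu_ex (x : ℕ) : ∃ t, uu x t := by
  have h : ∀ y, ∃ k, ∀ t, k ≤ t → (Nat.Partrec.Code.evaln t ackC y).isSome = true := by
    intro y
    have h1 : ack y y ∈ ackC.eval y := by rw [ackC_spec]; exact Part.mem_some _
    obtain ⟨k, hk⟩ := Nat.Partrec.Code.evaln_complete.1 h1
    refine ⟨k, fun t ht => ?_⟩
    rw [Option.isSome_iff_exists]
    exact ⟨_, Nat.Partrec.Code.evaln_mono ht hk⟩
  choose k hk using h
  refine ⟨x + ∑ y ∈ Finset.range (x + 1), k y, Nat.le_add_right _ _, fun y hy => hk y _ ?_⟩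
  have := Finset.single_le_sum (f := k) (fun _ _ => Nat.zero_le _) (Finset.mem_range.2 hy)
  omega

open Classical in
/-- The convergence time. -/
noncomputable def Fast (x : ℕ) : ℕ := Nat.find (uu_ex x)

theorem uu_Fast (x : ℕ) : uu x (Fast x) := by
  classical
  exact Nat.find_spec (uu_ex x)

theorem Fast_le {x t : ℕ} (h : uu x t) : Fast x ≤ t := by
  classical
  exact Nat.find_min' (uu_ex x) h

theorem le_Fast (x : ℕ) : x ≤ Fast x := (uu_Fast x).1

theorem lt_Fast {x s : ℕ} (h : ¬ uu x s) : s < Fast x := by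
  by_contra hcon
  exact h (uu_mono (uu_Fast x) (by omega))

/-- The distinguished sequence. -/
noncomputable def Ns : ℕ → ℕ
  | 0 => 2
  | j + 1 => nu (Fast (Ns j))

theorem Ns_succ (j : ℕ) : Ns (j + 1) = nu (Fast (Ns j)) := rfl

theorem Ns_strictMono : StrictMono Ns := by
  apply strictMono_nat_of_lt_succ
  intro j
  rw [Ns_succ]
  have h1 := le_Fast (Ns j)
  have h2 := (nu_spec (Fast (Ns j))).2.1
  omega

theorem le_Ns (j : ℕ) : j + 2 ≤ Ns j := by
  induction j with
  | zero => exact le_refl _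
  | succ j ih =>
    have : Ns j < Ns (j + 1) := Ns_strictMono (Nat.lt_add_one j)
    omega

theorem exists_lt_Ns (n : ℕ) : ∃ j, n < Ns j := ⟨n, by have := le_Ns n; omega⟩

open Classical in
/-- The index of the next member. -/
noncomputable def idx (n : ℕ) : ℕ := Nat.find (exists_lt_Ns n)

/-- The next member of the sequence. -/
noncomputable def nx (n : ℕ) : ℕ := Ns (idx n)

theorem lt_nx (n : ℕ) : n < nx n := by
  classical
  exact Nat.find_spec (exists_lt_Ns n)

theorem idx_eq {n i : ℕ} (h : n < Ns i) (h' : ∀ j < i, Ns j ≤ n) : idx n = i := by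
  classical
  unfold idx
  rw [Nat.find_eq_iff]
  exact ⟨h, fun j hj => by have := h' j hj; omega⟩

/-- The numbering. -/
noncomputable def val : ℕ → ℕ
  | 0 => 0
  | a + 1 => evn (nx a.unpair.1) a.unpair.2

theorem val_zero : val 0 = 0 := rfl

theorem val_succ (a : ℕ) : val (a + 1) = evn (nx a.unpair.1) a.unpair.2 := rfl

theorem val_pair (n p : ℕ) : val (Nat.pair n p + 1) = evn (nx n) p := by
  rw [val_succ, Nat.unpair_pair]

theorem val_succ_pos (a : ℕ) : 1 ≤ val (a + 1) := by
  rw [val_succ]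
  exact evn_pos _ _ (by have := lt_nx a.unpair.1; omega)

open Classical in
/-- Bounded computation of the convergence time. -/
noncomputable def fs (s x : ℕ) : ℕ := ∑ t ∈ Finset.range s, if uu x t then 0 else 1

theorem fs_eq {s x : ℕ} (h : uu x s) : fs s x = Fast x := by
  classical
  unfold fs
  have h1 : ∀ t, (if uu x t then 0 else 1) = if t < Fast x then 1 else 0 := by
    intro t
    by_cases ht : uu x t
    · rw [if_pos ht, if_neg (by have := Fast_le ht; omega)]
    · rw [if_neg ht, if_pos (lt_Fast ht)]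
  simp only [h1]
  rw [Finset.sum_ite, Finset.sum_const_zero, add_zero, Finset.sum_const, smul_eq_mul, mul_one]
  have h2 : Finset.filter (fun t => t < Fast x) (Finset.range s) = Finset.range (Fast x) := by
    ext t
    have := Fast_le h
    simp only [Finset.mem_filter, Finset.mem_range]
    omega
  rw [h2, Finset.card_range]

theorem primrec_fs : Primrec₂ fs := by
  classical
  have : Primrec fun b : ℕ × ℕ => ∑ t ∈ Finset.range b.1, if uu b.2 t then 0 else 1 := by
    refine primrec_sum (β := ℕ × ℕ) (f := fun b t => if uu b.2 t then 0 else 1) ?_ fst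
    exact (Primrec.ite (primrec_uu.comp (snd.comp fst) snd) (const 0) (const 1)).to₂
  exact this.to₂

open Classical in
/-- One step of the approximation. -/
noncomputable def stp (s n x : ℕ) : ℕ := if n < x then x else if uu x s then nu (fs s x) else x

/-- The approximation to the next member. -/
noncomputable def ap (s n : ℕ) : ℕ := (stp s n)^[n + 1] 2

theorem primrec_ap : Primrec₂ ap := by
  classical
  have h : Primrec fun b : (ℕ × ℕ) × ℕ => stp b.1.1 b.1.2 b.2 := by
    refine Primrec.ite (nat_lt.comp (snd.comp fst) snd) snd ?_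
    refine Primrec.ite (primrec_uu.comp snd (fst.comp fst)) ?_ snd
    exact primrec_nu.comp (primrec_fs.comp (fst.comp fst) snd)
  have h2 : Primrec fun b : ℕ × ℕ => (stp b.1 b.2)^[b.2 + 1] 2 :=
    nat_iterate (succ.comp snd) (const 2) h.to₂
  exact h2.to₂

theorem stp_inv (s n k : ℕ) : ∃ i, (stp s n)^[k] 2 = Ns i ∧ (∀ j < i, Ns j ≤ n ∧ uu (Ns j) s) ∧
    (n < Ns i ∨ ¬ uu (Ns i) s ∨ i = k) := by
  classical
  induction k with
  | zero => exact ⟨0, rfl, fun j hj => absurd hj (Nat.not_lt_zero j), Or.inr (Or.inr rfl)⟩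
  | succ k ih =>
    obtain ⟨i, h1, h2, h3⟩ := ih
    rw [Function.iterate_succ_apply', h1]
    by_cases hn : n < Ns i
    · refine ⟨i, by unfold stp; rw [if_pos hn], h2, Or.inl hn⟩
    · by_cases hu : uu (Ns i) s
      · refine ⟨i + 1, ?_, ?_, ?_⟩
        · unfold stp
          rw [if_neg hn, if_pos hu, fs_eq hu, Ns_succ]
        · intro j hj
          rcases Nat.lt_succ_iff_lt_or_eq.1 hj with h | h
          · exact h2 j h
          · rw [h]; exact ⟨by omega, hu⟩
        · right; right
          rcases h3 with h | h | h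
          · exact absurd h hn
          · exact absurd hu h
          · rw [h]
      · refine ⟨i, ?_, h2, Or.inr (Or.inl hu)⟩
        unfold stp
        rw [if_neg hn, if_neg hu]

theorem ap_spec (s n : ℕ) : ∃ i, ap s n = Ns i ∧ (∀ j < i, Ns j ≤ n ∧ uu (Ns j) s) ∧
    (n < Ns i ∨ (Ns i ≤ n ∧ ¬ uu (Ns i) s)) := by
  obtain ⟨i, h1, h2, h3⟩ := stp_inv s n (n + 1)
  refine ⟨i, h1, h2, ?_⟩
  by_cases hn : n < Ns i
  · exact Or.inl hn
  · rcases h3 with h | h | h
    · exact absurd h hn
    · exact Or.inr ⟨by omega, h⟩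
    · have := le_Ns i
      omega

theorem ap_known {s n : ℕ} (h : n < ap s n) :
    ap s n = nx n ∧ ∃ i, nx n = Ns i ∧ ∀ j < i, uu (Ns j) s := by
  obtain ⟨i, h1, h2, h3⟩ := ap_spec s n
  have h4 : idx n = i := idx_eq (by rw [← h1]; exact h) (fun j hj => (h2 j hj).1)
  have h5 : nx n = Ns i := by rw [nx, h4]
  exact ⟨by rw [h1, h5], i, h5, fun j hj => (h2 j hj).2⟩

theorem ap_unknown {s n : ℕ} (hns : n ≤ s) (h : ap s n ≤ n) :
    ∃ i, nx n = Ns (i + 1) ∧ Ns i ≤ n ∧ ¬ uu (Ns i) s ∧ ∀ j < i, uu (Ns j) s := by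
  obtain ⟨i, h1, h2, h3⟩ := ap_spec s n
  rw [h1] at h
  have h4 : Ns i ≤ n ∧ ¬ uu (Ns i) s := by
    rcases h3 with h3 | h3
    · omega
    · exact h3
  have h5 : n < Ns (i + 1) := by
    rw [Ns_succ]
    have := lt_Fast h4.2
    have := (nu_spec (Fast (Ns i))).2.1
    omega
  have h6 : idx n = i + 1 := idx_eq h5 (fun j hj =>
    (Ns_strictMono.monotone (Nat.lt_succ_iff.1 hj)).trans h4.1)
  exact ⟨i, by rw [nx, h6], h4.1, h4.2, fun j hj => (h2 j hj).2⟩

theorem mixed {s n m p q : ℕ} (hm : m ≤ s) (hp : p ≤ s) (h1 : n < ap s n)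
    (h2 : ap s m ≤ m) : evn (nx n) p = evn (nx m) q ↔
      (evn 1 q = evn 2 q ∧ evn (ap s n) p = evn 1 q) := by
  obtain ⟨hk, i, hi1, hi2⟩ := ap_known h1
  obtain ⟨j, hj1, hj2, hj3, hj4⟩ := ap_unknown hm h2
  have hij : i ≤ j := by
    by_contra hcon
    exact hj3 (hi2 j (by omega))
  have hle : nx n ≤ s := by
    rw [hi1]
    exact (Ns_strictMono.monotone hij).trans (hj2.trans hm)
  have hF := lt_Fast hj3
  have hlt : evn (nx n) p < nx m := by
    rw [hj1, Ns_succ]
    exact lt_of_le_of_lt (le_Es (by omega) (by omega)) (nu_spec (Fast (Ns j))).1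
  have hpos : 1 ≤ nx m := by omega
  rw [hk]
  constructor
  · intro h
    by_cases hc : evn 1 q = evn 2 q
    · refine ⟨hc, ?_⟩
      rw [h]
      exact (Tm.const_iff (dec q)).1 hc (nx m) 1 hpos (le_refl 1)
    · exfalso
      have := Tm.le_ev_of_not_const (dec q) hc (nx m) hpos
      rw [h] at hlt
      unfold evn at hlt
      omega
  · rintro ⟨hc, h⟩
    rw [h]
    exact (Tm.const_iff (dec q)).1 hc 1 (nx m) (le_refl 1) hpos

/-- The decision predicate. -/
def dcc (s n p m q : ℕ) : Prop :=
  (n < ap s n ∧ m < ap s m ∧ evn (ap s n) p = evn (ap s m) q) ∨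
  (ap s n ≤ n ∧ ap s m ≤ m ∧ eqv p q) ∨
  (n < ap s n ∧ ap s m ≤ m ∧ evn 1 q = evn 2 q ∧ evn (ap s n) p = evn 1 q) ∨
  (ap s n ≤ n ∧ m < ap s m ∧ evn 1 p = evn 2 p ∧ evn (ap s m) q = evn 1 p)

theorem dcc_iff {s n p m q : ℕ} (hn : n ≤ s) (hp : p ≤ s) (hm : m ≤ s) (hq : q ≤ s) :
    dcc s n p m q ↔ evn (nx n) p = evn (nx m) q := by
  unfold dcc
  rcases Nat.lt_or_ge n (ap s n) with h1 | h1 <;> rcases Nat.lt_or_ge m (ap s m) with h2 | h2
  · have e1 := (ap_known h1).1
    have e2 := (ap_known h2).1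
    rw [← e1, ← e2]
    constructor
    · rintro (h | h | h | h)
      · exact h.2.2
      · omega
      · omega
      · omega
    · intro h
      exact Or.inl ⟨h1, h2, h⟩
  · rw [mixed hm hp h1 h2]
    constructor
    · rintro (h | h | h | h)
      · omega
      · omega
      · exact h.2.2
      · omega
    · intro h
      exact Or.inr (Or.inr (Or.inl ⟨h1, h2, h⟩))
  · rw [eq_comm (a := evn (nx n) p), mixed hn hq h2 h1]
    constructor
    · rintro (h | h | h | h)
      · omega
      · omega
      · omega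
      · exact h.2.2
    · intro h
      exact Or.inr (Or.inr (Or.inr ⟨h1, h2, h⟩))
  · obtain ⟨i, hi1, hi2, hi3, hi4⟩ := ap_unknown hn h1
    obtain ⟨j, hj1, hj2, hj3, hj4⟩ := ap_unknown hm h2
    have hij : i = j := by
      rcases lt_trichotomy i j with h | h | h
      · exact absurd (hj4 i h) hi3
      · exact h
      · exact absurd (hi4 j h) hj3
    subst hij
    rw [hi1, hj1]
    have hF := lt_Fast hi3
    have hG := (nu_spec (Fast (Ns i))).2.2
    rw [← Ns_succ] at hG
    constructor
    · rintro (h | h | h | h)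
      · omega
      · exact (eqv_iff p q).1 h.2.2 _ (by have := le_Ns (i + 1); omega)
      · omega
      · omega
    · intro h
      right; left
      refine ⟨h1, h2, ?_⟩
      rcases hG p (by omega) q (by omega) with h3 | h3
      · exact absurd h h3
      · exact h3

theorem primrec_dcc {α : Type*} [Primcodable α] {s n p m q : α → ℕ} (hs : Primrec s)
    (hn : Primrec n) (hp : Primrec p) (hm : Primrec m) (hq : Primrec q) :
    PrimrecPred fun a => dcc (s a) (n a) (p a) (m a) (q a) := by
  have a1 : Primrec fun a => ap (s a) (n a) := primrec_ap.comp hs hn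
  have a2 : Primrec fun a => ap (s a) (m a) := primrec_ap.comp hs hm
  have c1 : PrimrecPred fun a => n a < ap (s a) (n a) := nat_lt.comp hn a1
  have c2 : PrimrecPred fun a => m a < ap (s a) (m a) := nat_lt.comp hm a2
  have c3 : PrimrecPred fun a => ap (s a) (n a) ≤ n a := nat_le.comp a1 hn
  have c4 : PrimrecPred fun a => ap (s a) (m a) ≤ m a := nat_le.comp a2 hm
  refine PrimrecPred.or (c1.and (c2.and ?_)) (PrimrecPred.or (c3.and (c4.and ?_))
    (PrimrecPred.or (c1.and (c4.and (PrimrecPred.and ?_ ?_)))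
      (c3.and (c2.and (PrimrecPred.and ?_ ?_)))))
  · exact Primrec.eq.comp (primrec_evn.comp a1 hp) (primrec_evn.comp a2 hq)
  · exact primrec_eqv.comp hp hq
  · exact Primrec.eq.comp (primrec_evn.comp (const 1) hq) (primrec_evn.comp (const 2) hq)
  · exact Primrec.eq.comp (primrec_evn.comp a1 hp) (primrec_evn.comp (const 1) hq)
  · exact Primrec.eq.comp (primrec_evn.comp (const 1) hp) (primrec_evn.comp (const 2) hp)
  · exact Primrec.eq.comp (primrec_evn.comp a2 hq) (primrec_evn.comp (const 1) hp)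

theorem primrec_dec : PrimrecRel (fun a b => val a = val b) := by
  have hu : Primrec fun a : ℕ => (a - 1).unpair :=
    unpair.comp (nat_sub.comp Primrec.id (const 1))
  have h1 : PrimrecPred fun x : ℕ × ℕ => dcc (x.1 + x.2) (x.1 - 1).unpair.1 (x.1 - 1).unpair.2
      (x.2 - 1).unpair.1 (x.2 - 1).unpair.2 :=
    primrec_dcc (nat_add.comp fst snd) (fst.comp (hu.comp fst)) (snd.comp (hu.comp fst))
      (fst.comp (hu.comp snd)) (snd.comp (hu.comp snd))
  have h2 : PrimrecPred fun x : ℕ × ℕ => x.1 = 0 := Primrec.eq.comp fst (const 0)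
  have h3 : PrimrecPred fun x : ℕ × ℕ => x.2 = 0 := Primrec.eq.comp snd (const 0)
  have h4 := (h2.and h3).or ((h2.not.and h3.not).and h1)
  refine PrimrecPred.of_eq h4 (fun x => ?_)
  obtain ⟨a, b⟩ := x
  simp only
  rcases a with _ | a <;> rcases b with _ | b
  · simp
  · have := val_succ_pos b
    rw [val_zero]
    constructor
    · rintro (h | h)
      · omega
      · exact absurd rfl h.1.1
    · intro h; omega
  · have := val_succ_pos a
    rw [val_zero]
    constructor
    · rintro (h | h)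
      · omega
      · exact absurd rfl h.1.2
    · intro h; omega
  · have e1 := Nat.unpair_left_le a
    have e2 := Nat.unpair_right_le a
    have e3 := Nat.unpair_left_le b
    have e4 := Nat.unpair_right_le b
    have h5 : dcc (a + 1 + (b + 1)) (a + 1 - 1).unpair.1 (a + 1 - 1).unpair.2
        (b + 1 - 1).unpair.1 (b + 1 - 1).unpair.2 ↔ _ :=
      dcc_iff (by rw [Nat.add_sub_cancel]; omega) (by rw [Nat.add_sub_cancel]; omega)
        (by rw [Nat.add_sub_cancel]; omega) (by rw [Nat.add_sub_cancel]; omega)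
    rw [h5, val_succ, val_succ, Nat.add_sub_cancel, Nat.add_sub_cancel]
    constructor
    · rintro (h | h)
      · exact absurd h.1 (Nat.succ_ne_zero a)
      · exact h.2
    · intro h
      exact Or.inr ⟨⟨Nat.succ_ne_zero a, Nat.succ_ne_zero b⟩, h⟩

/-- Codes of numbers. -/
def rep (m : ℕ) : ℕ := if m = 0 then 0 else Nat.pair 0 (4 * (m - 1) + 1) + 1

theorem primrec_rep : Primrec rep := by
  refine Primrec.ite (Primrec.eq.comp Primrec.id (const 0)) (const 0) (succ.comp ?_)
  refine Primrec₂.natPair.comp (const 0) ?_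
  exact succ.comp (nat_mul.comp (const 4) (nat_sub.comp Primrec.id (const 1)))

theorem val_rep (m : ℕ) : val (rep m) = m := by
  unfold rep
  rcases m with _ | m
  · rw [if_pos rfl, val_zero]
  · rw [if_neg (Nat.succ_ne_zero m), val_pair, Nat.add_sub_cancel, evn_C]

theorem not_primrec_val : ¬ Primrec val := by
  intro h
  have hnx : Primrec nx := by
    refine (h.comp (succ.comp (Primrec₂.natPair.comp Primrec.id (const 0)))).of_eq (fun n => ?_)
    show val (Nat.pair n 0 + 1) = nx n
    rw [val_pair, evn_X]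
  apply not_primrec_ack_self
  have h1 : Primrec fun x : ℕ => (Nat.Partrec.Code.evaln (nx (nx x)) ackC x).getD 0 := by
    refine option_getD.comp ?_ (const 0)
    exact Nat.Partrec.Code.primrec_evaln.comp
      (pair (pair (hnx.comp hnx) (const ackC)) Primrec.id)
  refine h1.of_eq (fun x => ?_)
  have h2 : uu x (nx (nx x)) := by
    have h3 : Ns (idx x + 1) ≤ nx (nx x) := by
      have h4 : Ns (idx x) < Ns (idx (nx x)) := lt_nx (nx x)
      have h5 := Ns_strictMono.lt_iff_lt.1 h4
      exact Ns_strictMono.monotone h5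
    rw [Ns_succ] at h3
    have h6 := (nu_spec (Fast (Ns (idx x)))).2.1
    have h7 : uu (Ns (idx x)) (nx (nx x)) := uu_mono (uu_Fast _) (by omega)
    exact uu_anti h7 (lt_nx x).le
  have h8 := h2.2 x (Nat.lt_succ_self x)
  rw [Option.isSome_iff_exists] at h8
  obtain ⟨a, ha⟩ := h8
  have h9 : a ∈ ackC.eval x := Nat.Partrec.Code.evaln_sound ha
  rw [ackC_spec, Part.mem_some_iff] at h9
  rw [ha, Option.getD_some, h9]

end Pool.Agent.P6adfe4
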