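import Mathlib
import Pool.Agent.Lib.P6adfe4.Seq

set_option autoImplicit false
set_option linter.style.haveILetI false

namespace Pool.Agent.P6adfe4

open Primrec

/-- The class of unary functions generated from `0`, `1` and `x` by sums, products and powers. -/
inductive Skol : (ℕ → ℕ) → Prop
  | zero : Skol (fun _ => 0)
  | one : Skol (fun _ => 1)
  | id : Skol (fun x => x)
  | add {f g : ℕ → ℕ} : Skol f → Skol g → Skol (fun x => f x + g x)
  | mul {f g : ℕ → ℕ} : Skol f → Skol g → Skol (fun x => f x * g x)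
  | pow {f g : ℕ → ℕ} : Skol f → Skol g → Skol (fun x => f x ^ g x)

theorem Skol.const (n : ℕ) : Skol (fun _ => n) := by
  induction n with
  | zero => exact Skol.zero
  | succ n ih => exact Skol.add ih Skol.one

theorem Skol.subst {f : ℕ → ℕ} (hf : Skol f) : (∀ x, 1 ≤ x → f x = 0) ∨
    ∃ sub : ℕ → ℕ, Primrec sub ∧ ∀ N, 1 ≤ N → ∀ p, evn N (sub p) = f (evn N p) := by
  induction hf with
  | zero => left; intro _ _; rfl
  | one => right; exact ⟨fun _ => 4 * 0 + 1, Primrec.const _, fun N _ p => evn_C N 0⟩
  | id => right; exact ⟨fun p => p, Primrec.id, fun _ _ _ => rfl⟩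
  | @add f g _ _ hf hg =>
    rcases hf with hf | ⟨sf, pf, hf⟩ <;> rcases hg with hg | ⟨sg, pg, hg⟩
    · left; intro x hx; simp only [hf x hx, hg x hx]
    · right
      refine ⟨sg, pg, fun N hN p => ?_⟩
      simp only [hg N hN p, hf _ (evn_pos N p hN), zero_add]
    · right
      refine ⟨sf, pf, fun N hN p => ?_⟩
      simp only [hf N hN p, hg _ (evn_pos N p hN), add_zero]
    · right
      refine ⟨fun p => 4 * Nat.pair (sf p) (sg p) + 2, ?_, fun N hN p => ?_⟩
      · exact nat_add.comp (nat_mul.comp (Primrec.const 4) (Primrec₂.natPair.comp pf pg))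
          (Primrec.const 2)
      · rw [evn_Add, hf N hN p, hg N hN p]
  | @mul f g _ _ hf hg =>
    rcases hf with hf | ⟨sf, pf, hf⟩
    · left; intro x hx; simp only [hf x hx, zero_mul]
    rcases hg with hg | ⟨sg, pg, hg⟩
    · left; intro x hx; simp only [hg x hx, mul_zero]
    right
    refine ⟨fun p => 4 * Nat.pair (sf p) (sg p) + 3, ?_, fun N hN p => ?_⟩
    · exact nat_add.comp (nat_mul.comp (Primrec.const 4) (Primrec₂.natPair.comp pf pg))
        (Primrec.const 3)
    · rw [evn_Mul, hf N hN p, hg N hN p]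
  | @pow f g _ _ hf hg =>
    rcases hg with hg | ⟨sg, pg, hg⟩
    · right
      refine ⟨fun _ => 4 * 0 + 1, Primrec.const _, fun N hN p => ?_⟩
      simp only [evn_C, hg _ (evn_pos N p hN), pow_zero, zero_add]
    rcases hf with hf | ⟨sf, pf, hf⟩
    · left
      intro x hx
      have h1 := hg x hx 0
      rw [evn_X] at h1
      have h2 := evn_pos x (sg 0) hx
      simp only [hf x hx]
      exact zero_pow (by omega)
    · right
      refine ⟨fun p => 4 * Nat.pair (sf p) (sg p) + 4, ?_, fun N hN p => ?_⟩
      · exact nat_add.comp (nat_mul.comp (Primrec.const 4) (Primrec₂.natPair.comp pf pg))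
          (Primrec.const 4)
      · rw [evn_Pow, hf N hN p, hg N hN p]

theorem Skol.lift {f : ℕ → ℕ} (hf : Skol f) :
    ∃ fhat : ℕ → ℕ, Primrec fhat ∧ ∀ a, val (fhat a) = f (val a) := by
  rcases hf.subst with h | ⟨sub, hs, h⟩
  · refine ⟨fun a => if a = 0 then rep (f 0) else 0, ?_, fun a => ?_⟩
    · exact Primrec.ite (Primrec.eq.comp Primrec.id (Primrec.const 0)) (Primrec.const _)
        (Primrec.const 0)
    · rcases a with _ | a
      · beta_reduce; rw [if_pos rfl, val_rep, val_zero]
      · beta_reduce; rw [if_neg (Nat.succ_ne_zero a), val_zero, h _ (val_succ_pos a)]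
  · refine ⟨fun a => if a = 0 then rep (f 0) else
      Nat.pair (a - 1).unpair.1 (sub (a - 1).unpair.2) + 1, ?_, fun a => ?_⟩
    · have hu : Primrec fun a : ℕ => (a - 1).unpair :=
        unpair.comp (nat_sub.comp Primrec.id (Primrec.const 1))
      exact Primrec.ite (Primrec.eq.comp Primrec.id (Primrec.const 0)) (Primrec.const _)
        (succ.comp (Primrec₂.natPair.comp (fst.comp hu) (hs.comp (snd.comp hu))))
    · rcases a with _ | a
      · beta_reduce; rw [if_pos rfl, val_rep, val_zero]
      · beta_reduce; rw [if_neg (Nat.succ_ne_zero a), val_pair, Nat.add_sub_cancel, val_succ,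
          h _ (by have := lt_nx a.unpair.1; omega)]

end Pool.Agent.P6adfe4
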